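import Pool.Agent.H858.AD.Wrd

/-!
# Restriction to some of the factors
-/

set_option autoImplicit false
set_option linter.unusedSectionVars false
set_option linter.unusedVariables false

open CategoryTheory AlgebraicGeometry Finset

universe u v w

namespace Pool.Agent.H858.AD

open Pool.Agent.H914 hiding iter map_iter
open Pool.Agent.H447 Pool.Agent.W534 VarClass Obj WeilCohomology
open Pool.Agent.H281R3.HT Pool.Agent.W536.RR
open Pool.Agent.Y163 (pw pr tup tup_pr pw_hom_ext pr_zero_succ pr_succ dim_pw HBasis dualEq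
  dualEq_apply mon mon_eq exists_monBasis)
open Pool.Agent.H858.FC (PP PP_eq PP_gr PP_mul tr_PP PP_alg prod_filter_one)
open Pool.Agent.R940 (repr_zero)
open Pool.Agent.Y133.Half (spanCycles_of_algSpan)

variable {k : Type u} [Field k] {𝒱 : VarClass k} {ops : CycleOps 𝒱}
  {W : WeilCohomology.{u, v} ops} {X Y Z S : 𝒱.Obj}

/-- The conjecture D in one codimension kills the numerically trivial classes. -/
theorem zero_of_D {j : ℕ} (h : HomEqNumIn W Z j) {x : W.H Z} (hx : x ∈ numZ W Z)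
    (hj : x ∈ W.gr Z (2 * j)) : x = 0 := by
  by_cases hjd : j ≤ Z.dim
  · refine h.span (p := Z.dim - j) (by omega) (spanCycles_of_algSpan hx.1 hj) fun w hw => ?_
    rw [← algSpan_comm hx.1]
    exact mem_transc.1 hx.2 _ (cl_mem_algSpan hw)
  · rw [W.gr_eq_bot Z _ (by omega), Submodule.mem_bot] at hj
    exact hj

/-- The operation `x ↦ g_*(x P)` preserves the codimension. -/
theorem push_gr (g : Z ⟶ S) {x P : W.H Z} {j e : ℕ} (hx : x ∈ W.gr Z (2 * j))
    (hP : P ∈ W.gr Z (2 * e)) (he : e + S.dim = Z.dim) : W.push g (x * P) ∈ W.gr S (2 * j) := by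
  have h1 := W.push_mem g (W.mul_mem hx hP)
  rw [show ((2 * j + 2 * e : ℕ) : ℤ) + 2 * ((S.dim : ℤ) - (Z.dim : ℤ)) = ((2 * j : ℕ) : ℤ) by
    rw [← he]; push_cast; ring, grZ_natCast] at h1
  exact h1

/-- The enumeration of the elements of a set of factors. -/
theorem exists_enum {n m : ℕ} (T : Finset (Fin (n + 1))) (hT : T.card = m + 1) :
    ∃ τ : Fin (m + 1) → Fin (n + 1), Function.Injective τ ∧ (∀ t, t ∈ T ↔ ∃ i, τ i = t) ∧
      ∀ w : Fin (m + 1) → W.H X, W.map (tup m fun i => pr X n (τ i)) (PP W X m w) =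
        PP W X n (Function.extend τ w fun _ => 1) := by
  classical
  set F : List (Fin (n + 1)) := (List.finRange (n + 1)).filter (fun t => t ∈ T) with hF
  have hFT : F.toFinset = T := by
    ext t
    rw [List.mem_toFinset, hF, List.mem_filter]
    simp
  have hFn : F.Nodup := (List.nodup_finRange _).filter _
  have hlen : F.length = m + 1 := by
    rw [← List.toFinset_card_of_nodup hFn, hFT, hT]
  obtain ⟨τ, hτ⟩ : ∃ τ : Fin (m + 1) → Fin (n + 1), F = List.ofFn τ := by
    refine ⟨fun i => F.get (i.cast hlen.symm), ?_⟩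
    apply List.ext_getElem
    · rw [List.length_ofFn, hlen]
    · intro i hi hi'
      rw [List.getElem_ofFn]
      rfl
  have hinj : Function.Injective τ := by
    rw [← List.nodup_ofFn, ← hτ]
    exact hFn
  refine ⟨τ, hinj, fun t => ?_, fun w => ?_⟩
  · rw [← hFT, List.mem_toFinset, hτ, List.mem_ofFn]
  · rw [PP_eq, PP_eq, map_list_prod, List.map_ofFn]
    have h1 : (List.ofFn fun t => W.map (pr X n t) (Function.extend τ w (fun _ => 1) t)).prod =
        (F.map fun t => W.map (pr X n t) (Function.extend τ w (fun _ => 1) t)).prod := by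
      rw [List.ofFn_eq_map, prod_filter_one (fun t => t ∈ T)
        (fun t => W.map (pr X n t) (Function.extend τ w (fun _ => 1) t)) (fun t ht => ?_)]
      rw [Function.extend_apply', map_one]
      rintro ⟨i, rfl⟩
      apply ht
      rw [← hFT, List.mem_toFinset, hτ, List.mem_ofFn]
      exact ⟨i, rfl⟩
    rw [h1, hτ, List.map_ofFn]
    congr 2
    funext i
    rw [Function.comp_apply, Function.comp_apply, ← W.map_comp, tup_pr, hinj.extend_apply]

/-- A class of a zero-cycle of nonzero degree. -/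
structure IsPt (W : WeilCohomology.{u, v} ops) (X : 𝒱.Obj) (p : W.H X) : Prop where
  alg : p ∈ algSpan W X
  gr : p ∈ W.gr X (2 * X.dim)
  tr : W.tr X p ≠ 0

theorem coef_lin {K V α : Type*} [Field K] [AddCommGroup V] [Module K V] [Fintype α]
    [DecidableEq α] {b : Module.Basis α K V} (ψ : V →ₗ[K] K) {a : α} (hne : ψ (b a) ≠ 0)
    (h0 : ∀ a', a' ≠ a → ψ (b a') = 0) {x : V} (hx : ψ x = 0) : b.repr x a = 0 := by
  rw [← b.sum_repr x, map_sum, Finset.sum_eq_single a] at hx
  · rw [map_smul, smul_eq_mul] at hx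
    exact (mul_eq_zero.1 hx).resolve_right hne
  · intro a' _ ha'
    rw [map_smul, h0 a' ha', smul_zero]
  · intro h
    exact absurd (Finset.mem_univ _) h

theorem lin_coef {K V α : Type*} [Field K] [AddCommGroup V] [Module K V] [Fintype α]
    [DecidableEq α] {b : Module.Basis α K V} (ψ : V →ₗ[K] K) {a : α}
    (h0 : ∀ a', a' ≠ a → ψ (b a') = 0) {x : V} (hx : b.repr x a = 0) : ψ x = 0 := by
  rw [← b.sum_repr x, map_sum, Finset.sum_eq_zero]
  intro a' _
  by_cases ha : a' = a
  · rw [ha, hx, zero_smul, map_zero]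
  · rw [map_smul, h0 a' ha, smul_zero]

theorem coef_word {ιY ι : Type v} [Fintype ιY] [Fintype ι] [DecidableEq ιY] [DecidableEq ι]
    {BY : HBasis W Y ιY} {B : HBasis W X ι} {n : ℕ}
    {b : Module.Basis (ιY × (Fin (n + 1) → ι)) W.K (W.H (Y.prod (pw X n)))}
    (hb : ∀ a, b a = EE W Y X n (BY.b a.1) (fun t => B.b (a.2 t))) {uY : W.H Y} {eY : ℕ}
    (huY : uY ∈ W.gr Y eY) {u : Fin (n + 1) → W.H X} {d : Fin (n + 1) → ℕ}
    (hu : ∀ t, u t ∈ W.gr X (d t)) (a : ιY × (Fin (n + 1) → ι))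
    (h1 : ∀ l, W.tr Y (BY.b l * uY) ≠ 0 ↔ l = a.1)
    (h2 : ∀ t l, W.tr X (B.b l * u t) ≠ 0 ↔ l = a.2 t) {x : W.H (Y.prod (pw X n))}
    (hx : W.tr (Y.prod (pw X n)) (x * EE W Y X n uY u) = 0) : b.repr x a = 0 := by
  refine coef_lin (W.tr (Y.prod (pw X n)) ∘ₗ LinearMap.mulRight W.K (EE W Y X n uY u)) (a := a)
    ?_ ?_ hx
  · obtain ⟨ε, hε, h3⟩ := tr_EE (n := n) (BY.mem a.1) huY (fun t => B.mem (a.2 t)) hu
    rw [LinearMap.comp_apply, LinearMap.mulRight_apply, hb, h3]
    refine mul_ne_zero hε (mul_ne_zero ((h1 _).2 rfl) ?_)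
    exact prod_ne_zero_iff.2 fun t _ => (h2 t _).2 rfl
  · intro a' ha'
    obtain ⟨ε, hε, h3⟩ := tr_EE (n := n) (BY.mem a'.1) huY (fun t => B.mem (a'.2 t)) hu
    rw [LinearMap.comp_apply, LinearMap.mulRight_apply, hb, h3]
    by_contra h4
    have h5 := right_ne_zero_of_mul h4
    apply ha'
    refine Prod.ext ((h1 _).1 (left_ne_zero_of_mul h5)) ?_
    funext t
    exact (h2 t _).1 (prod_ne_zero_iff.1 (right_ne_zero_of_mul h5) t (mem_univ _))

/-- The product of the points outside of `T`. -/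
theorem pts {n m : ℕ} (T : Finset (Fin (n + 1))) (hT : T.card = m + 1) {pX : W.H X}
    (hpX : IsPt W X pX) {y : W.H Y} {r : ℕ} (hy : y ∈ algSpan W Y) (hyg : y ∈ W.gr Y (2 * r)) :
    EE W Y X n y (fun t => if t ∈ T then 1 else pX) ∈ algSpan W (Y.prod (pw X n)) ∧
      ∃ e, e + (m + 1) * X.dim = r + (n + 1) * X.dim ∧
        EE W Y X n y (fun t => if t ∈ T then 1 else pX) ∈ W.gr (Y.prod (pw X n)) (2 * e) := by
  constructor
  · refine EE_alg hy fun t => ?_
    split_ifs
    · exact one_mem_algSpan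
    · exact hpX.alg
  · have h1 : ∀ t : Fin (n + 1), (if t ∈ T then (1 : W.H X) else pX) ∈
        W.gr X (if t ∈ T then 0 else 2 * X.dim) := by
      intro t
      split_ifs
      · exact W.one_mem X
      · exact hpX.gr
    have h2 := EE_gr hyg h1
    have h3 : ∑ t : Fin (n + 1), (if t ∈ T then 0 else 2 * X.dim) + 2 * ((m + 1) * X.dim) =
        2 * ((n + 1) * X.dim) := by
      have e1 : ∑ t : Fin (n + 1), (if t ∈ T then 2 * X.dim else 0) = 2 * ((m + 1) * X.dim) := by
        rw [← sum_filter, sum_const, filter_mem_eq_inter, univ_inter, hT, smul_eq_mul]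
        ring
      rw [← e1, ← sum_add_distrib]
      have e2 : ∀ t : Fin (n + 1), (if t ∈ T then 0 else 2 * X.dim) +
          (if t ∈ T then 2 * X.dim else 0) = 2 * X.dim := by
        intro t
        split_ifs <;> omega
      rw [sum_congr rfl fun t _ => e2 t, sum_const, card_univ, Fintype.card_fin, smul_eq_mul]
      ring
    have h4 : (m + 1) * X.dim ≤ (n + 1) * X.dim := by omega
    refine ⟨r + ((n + 1) * X.dim - (m + 1) * X.dim), by omega, ?_⟩
    have h5 : 2 * r + ∑ t : Fin (n + 1), (if t ∈ T then 0 else 2 * X.dim) =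
        2 * (r + ((n + 1) * X.dim - (m + 1) * X.dim)) := by omega
    rwa [h5] at h2

/-- The conjecture D for fewer factors. -/
theorem ext_D {n m j : ℕ} {x : W.H (Y.prod (pw X n))} (hx : x ∈ numZ W (Y.prod (pw X n)))
    (hxg : x ∈ W.gr (Y.prod (pw X n)) (2 * j)) (hD : HomEqNumIn W (Y.prod (pw X m)) j)
    (T : Finset (Fin (n + 1))) (hT : T.card = m + 1) {pX : W.H X} (hpX : IsPt W X pX)
    {y : W.H Y} {ey : ℕ} (hy : y ∈ W.gr Y ey) {u : Fin (n + 1) → W.H X} {d : Fin (n + 1) → ℕ}
    (hu : ∀ t, u t ∈ W.gr X (d t)) (hu1 : ∀ t, t ∉ T → u t = pX) :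
    W.tr (Y.prod (pw X n)) (x * EE W Y X n y u) = 0 := by
  classical
  obtain ⟨τ, hτ, hτT, hτP⟩ := exists_enum (W := W) (X := X) T hT
  obtain ⟨hP, e, he, hPg⟩ := pts (Y := Y) T hT hpX (r := 0) one_mem_algSpan (W.one_mem Y)
  set P := EE W Y X n 1 (fun t => if t ∈ T then 1 else pX) with hPdef
  set g : Y.prod (pw X n) ⟶ Y.prod (pw X m) := Obj.lift (fst Y (pw X n))
    (snd Y (pw X n) ≫ tup m fun i => pr X n (τ i)) with hg
  have h1 : W.push g (x * P) = 0 := by
    refine zero_of_D hD (numZ_push g (numZ_mul hx hP)) (push_gr g hxg hPg ?_)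
    rw [dim_prod, dim_prod, dim_pw, dim_pw]
    omega
  have h2 := W.tr_push g (x * P) (EE W Y X m y (fun i => u (τ i)))
  rw [h1, zero_mul, map_zero] at h2
  have h3 : W.map g (EE W Y X m y (fun i => u (τ i))) =
      EE W Y X n y (Function.extend τ (fun i => u (τ i)) fun _ => 1) := by
    rw [EE, EE, map_mul, ← W.map_comp, ← W.map_comp, hg, Obj.lift_fst, Obj.lift_snd, W.map_comp,
      hτP]
  rw [h3, mul_assoc] at h2
  have h4 : ∀ t, (if t ∈ T then (1 : W.H X) else pX) ∈ W.gr X (if t ∈ T then 0 else 2 * X.dim) := by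
    intro t
    split_ifs
    · exact W.one_mem X
    · exact hpX.gr
  have h5 : ∀ t, Function.extend τ (fun i => u (τ i)) (fun _ => (1 : W.H X)) t ∈
      W.gr X (if t ∈ T then d t else 0) := by
    intro t
    by_cases ht : t ∈ T
    · obtain ⟨i, rfl⟩ := (hτT t).1 ht
      rw [hτ.extend_apply, if_pos ht]
      exact hu _
    · rw [Function.extend_apply' _ _ _ (fun h => ht ((hτT t).2 h)), if_neg ht]
      exact W.one_mem X
  obtain ⟨ε, hε, h6⟩ := EE_mul (n := n) (W.one_mem Y) hy h4 h5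
  have h7 : (fun t => (if t ∈ T then (1 : W.H X) else pX) *
      Function.extend τ (fun i => u (τ i)) (fun _ => (1 : W.H X)) t) = u := by
    funext t
    by_cases ht : t ∈ T
    · obtain ⟨i, rfl⟩ := (hτT t).1 ht
      rw [hτ.extend_apply, if_pos ht, one_mul]
    · rw [Function.extend_apply' _ _ _ (fun h => ht ((hτT t).2 h)), if_neg ht, mul_one, hu1 t ht]
  rw [h7, one_mul] at h6
  rw [hPdef, h6, mul_smul_comm, map_smul, smul_eq_mul] at h2
  exact (mul_eq_zero.1 h2.symm).resolve_left hε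

/-- The pull-back under a morphism which is injective in degree `c`. -/
theorem li_map {ι : Type v} [Finite ι] (B : HBasis W X ι) {c : ℕ} (f : S ⟶ X)
    (hf : ∀ x ∈ W.gr X c, W.map f x = 0 → x = 0) :
    LinearIndependent W.K (fun l : {l // B.deg l = c} => W.map f (B.b l.1)) := by
  classical
  have := Fintype.ofFinite ι
  rw [Fintype.linearIndependent_iff]
  intro a ha
  have h1 : ∑ l : {l // B.deg l = c}, a l • B.b l.1 = 0 := by
    apply hf
    · refine Submodule.sum_mem _ fun l _ => Submodule.smul_mem _ _ ?_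
      have := B.mem l.1
      rwa [l.2] at this
    · rw [map_sum, ← ha]
      exact sum_congr rfl fun l _ => map_smul _ _ _
  have h2 : LinearIndependent W.K (fun l : {l // B.deg l = c} => B.b l.1) :=
    B.b.linearIndependent.comp _ Subtype.val_injective
  exact Fintype.linearIndependent_iff.1 h2 a h1

theorem map_tup_PP {m : ℕ} (f : S ⟶ X) (x : Fin (m + 1) → W.H X) :
    W.map (tup m fun i => pr S m i ≫ f) (PP W X m x) = PP W S m (fun i => W.map f (x i)) := by
  rw [PP_eq, PP_eq, map_list_prod, List.map_ofFn]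
  congr 2
  funext i
  rw [Function.comp_apply, ← W.map_comp, tup_pr, W.map_comp]

/-- Numerically trivial classes of codimension `j` on `X ^ (m + 1)` have no component in the tensor
power of `H ^ c(X)`. -/
def LD (W : WeilCohomology.{u, v} ops) (X : 𝒱.Obj) (m c j : ℕ) : Prop :=
  ∀ ζ ∈ numZ W (pw X m), ζ ∈ W.gr (pw X m) (2 * j) → ∀ w : Fin (m + 1) → W.H X,
    (∀ i, w i ∈ W.gr X (2 * X.dim - c)) → W.tr (pw X m) (ζ * PP W X m w) = 0

theorem LD_of_alg {m c j : ℕ} (h : ∀ x ∈ W.gr X (2 * X.dim - c), x ∈ algSpan W X) :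
    LD W X m c j := fun _ hζ _ w hw => mem_transc.1 hζ.2 _ (PP_alg m fun i => h _ (hw i))

theorem LD_of_D {m j c : ℕ} (hcd : c ≤ 2 * X.dim) (f : S ⟶ X)
    (hf : ∀ x ∈ W.gr X c, W.map f x = 0 → x = 0) (hD : HomEqNumIn W (pw S m) j) :
    LD W X m c j := by
  classical
  intro E hE1 hE2 w hw
  obtain ⟨ι, hι, ⟨B⟩⟩ := Pool.Agent.Y163.exists_hbasis W X
  have := Fintype.ofFinite ι
  set q : pw S m ⟶ pw X m := tup m fun i => pr S m i ≫ f with hq
  have hE3 : W.map q E = 0 := zero_of_D hD (numZ_map q hE1) (W.map_mem q hE2)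
  -- the dual vectors on `S`
  obtain ⟨V, hVg, hV⟩ := exists_dual (li_map B f hf) (deg := fun _ => c) (fun l => by
    have := W.map_mem f (B.mem l.1)
    rwa [l.2] at this)
  obtain ⟨bm, hbm⟩ := exists_monBasis B m
  -- the coefficients of `E`
  have hE4 : ∀ (A : Fin (m + 1) → ι) (hA : ∀ i, B.deg (A i) = c), bm.repr E A = 0 := by
    intro A hA
    have hkey : ∀ J : Fin (m + 1) → ι, (W.tr (pw S m) (W.map q (bm J) *
        PP W S m (fun i => V ⟨A i, hA i⟩)) ≠ 0 ↔ J = A) := by
      intro J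
      rw [hbm, mon_PP, hq, map_tup_PP]
      obtain ⟨ε, hε, h1⟩ := PP_mul m (x := fun i => W.map f (B.b (J i)))
        (y := fun i => V ⟨A i, hA i⟩) (fun i => W.map_mem f (B.mem (J i)))
        (fun i => hVg ⟨A i, hA i⟩)
      rw [h1, map_smul, smul_eq_mul, tr_PP]
      constructor
      · intro h2
        have h3 := prod_ne_zero_iff.1 (right_ne_zero_of_mul h2)
        funext i
        have h4 := h3 i (mem_univ _)
        by_cases hJ : B.deg (J i) = c
        · rw [hV ⟨A i, hA i⟩ ⟨J i, hJ⟩] at h4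
          by_contra h5
          apply h4
          rw [if_neg]
          intro h6
          exact h5 (congrArg Subtype.val h6)
        · exfalso
          apply h4
          refine W.tr_eq_zero (W.mul_mem (W.map_mem f (B.mem (J i))) (hVg _)) ?_
          intro h5
          have hle : c ≤ 2 * S.dim := by
            by_contra h6
            have h7 := hV ⟨A i, hA i⟩ ⟨A i, hA i⟩
            have h8 := W.map_mem f (B.mem (A i))
            rw [hA i, W.gr_eq_bot S c (by omega), Submodule.mem_bot] at h8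
            rw [h8, zero_mul, map_zero, if_pos rfl] at h7
            exact zero_ne_one h7
          omega
      · rintro rfl
        refine mul_ne_zero hε (prod_ne_zero_iff.2 fun i _ => ?_)
        rw [hV ⟨J i, hA i⟩ ⟨J i, hA i⟩, if_pos rfl]
        exact one_ne_zero
    refine coef_lin (W.tr (pw S m) ∘ₗ LinearMap.mulRight W.K
      (PP W S m (fun i => V ⟨A i, hA i⟩)) ∘ₗ (W.map q).toLinearMap) ?_ ?_ ?_
    · exact (hkey _).2 rfl
    · intro J hJ
      by_contra h1
      exact hJ ((hkey J).1 h1)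
    · change W.tr (pw S m) (W.map q E * _) = 0
      rw [hE3, zero_mul, map_zero]
  rw [← bm.sum_repr E, Finset.sum_mul, map_sum]
  refine sum_eq_zero fun J _ => ?_
  rw [smul_mul_assoc, map_smul]
  by_cases hJ : ∀ i, B.deg (J i) = c
  · rw [hE4 J hJ, zero_smul]
  · push Not at hJ
    obtain ⟨i, hi⟩ := hJ
    obtain ⟨ε, hε, h1⟩ := PP_mul m (x := fun i => B.b (J i)) (y := w) (fun i => B.mem (J i)) hw
    rw [hbm, mon_PP, h1, map_smul, tr_PP, prod_eq_zero (mem_univ i), smul_zero, smul_zero]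
    exact W.tr_eq_zero (W.mul_mem (B.mem _) (hw i)) (by omega)

/-- Numerically trivial classes are orthogonal to the good dual words. -/
theorem ext_good {ι : Type v} [Fintype ι] [DecidableEq ι] {B : HBasis W X ι} {n m j c : ℕ}
    {x : W.H (Y.prod (pw X n))} (hx : x ∈ numZ W (Y.prod (pw X n)))
    (hxg : x ∈ W.gr (Y.prod (pw X n)) (2 * j)) (hD : LD W X m c j)
    (T : Finset (Fin (n + 1))) (hT : T.card = m + 1) {pX : W.H X} (hpX : IsPt W X pX)
    {pY : W.H Y} (hpY : IsPt W Y pY) {U : ι → W.H X}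
    (hUg : ∀ l, U l ∈ W.gr X (2 * X.dim - B.deg l))
    (a : Fin (n + 1) → ι) (ha : ∀ t ∈ T, B.deg (a t) = c) {u : Fin (n + 1) → W.H X}
    (hu : ∀ t ∈ T, u t = U (a t)) (hu1 : ∀ t, t ∉ T → u t = pX) :
    W.tr (Y.prod (pw X n)) (x * EE W Y X n pY u) = 0 := by
  classical
  obtain ⟨τ, hτ, hτT, hτP⟩ := exists_enum (W := W) (X := X) T hT
  obtain ⟨hP, e, he, hPg⟩ := pts (Y := Y) T hT hpX (r := Y.dim) hpY.alg hpY.gr
  set P := EE W Y X n pY (fun t => if t ∈ T then 1 else pX) with hPdef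
  set g : Y.prod (pw X n) ⟶ pw X m := snd Y (pw X n) ≫ tup m fun i => pr X n (τ i) with hg
  set E := W.push g (x * P) with hE
  have hE1 : E ∈ numZ W (pw X m) := numZ_push g (numZ_mul hx hP)
  have hE2 : E ∈ W.gr (pw X m) (2 * j) := by
    refine push_gr g hxg hPg ?_
    rw [dim_prod, dim_pw, dim_pw]
    omega
  have hac : ∀ i, B.deg (a (τ i)) = c := fun i => ha _ ((hτT _).2 ⟨i, rfl⟩)
  have hE5 : W.tr (pw X m) (E * PP W X m (fun i => U (a (τ i)))) = 0 := by
    refine hD E hE1 hE2 _ fun i => ?_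
    have := hUg (a (τ i))
    rwa [hac i] at this
  rw [hE, W.tr_push, hg, W.map_comp, hτP, mul_assoc] at hE5
  have h4 : ∀ t, (if t ∈ T then (1 : W.H X) else pX) ∈ W.gr X (if t ∈ T then 0 else 2 * X.dim) := by
    intro t
    split_ifs
    · exact W.one_mem X
    · exact hpX.gr
  have h5 : ∀ t, Function.extend τ (fun i => U (a (τ i))) (fun _ => (1 : W.H X)) t ∈
      W.gr X (if t ∈ T then 2 * X.dim - B.deg (a t) else 0) := by
    intro t
    by_cases ht : t ∈ T
    · obtain ⟨i, rfl⟩ := (hτT t).1 ht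
      rw [hτ.extend_apply, if_pos ht]
      exact hUg _
    · rw [Function.extend_apply' _ _ _ (fun h => ht ((hτT t).2 h)), if_neg ht]
      exact W.one_mem X
  obtain ⟨ε, hε, h6⟩ := EE_mul (n := n) hpY.gr (W.one_mem Y) h4 h5
  have h7 : (fun t => (if t ∈ T then (1 : W.H X) else pX) *
      Function.extend τ (fun i => U (a (τ i))) (fun _ => (1 : W.H X)) t) = u := by
    funext t
    by_cases ht : t ∈ T
    · obtain ⟨i, rfl⟩ := (hτT t).1 ht
      rw [hτ.extend_apply, if_pos ht, one_mul, hu _ ht]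
    · rw [Function.extend_apply' _ _ _ (fun h => ht ((hτT t).2 h)), if_neg ht, mul_one, hu1 t ht]
  rw [h7, mul_one] at h6
  have h8 : P * W.map (snd Y (pw X n)) (PP W X n (Function.extend τ (fun i => U (a (τ i)))
      fun _ => 1)) = ε • EE W Y X n pY u := by
    have h9 : EE W Y X n 1 (Function.extend τ (fun i => U (a (τ i))) fun _ => 1) =
        W.map (snd Y (pw X n)) (PP W X n (Function.extend τ (fun i => U (a (τ i)))
          fun _ => 1)) := by
      rw [EE, map_one, one_mul]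
    rw [← h6, h9]
  rw [h8, mul_smul_comm, map_smul, smul_eq_mul] at hE5
  exact (mul_eq_zero.1 hE5).resolve_left hε

end Pool.Agent.H858.AD
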