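import Mathlib

/-!
# Counting words with small support
-/

set_option autoImplicit false

open Finset

namespace Pool.Agent.H858.AD

theorem choose_le {n L : ℕ} (hn : 2 * L ≤ n) (hn0 : 0 < n) (m : ℕ) (hm : m ≤ L) :
    (n.choose (L - m) : ℚ) ≤ (2 * L / n : ℚ) ^ m * n.choose L := by
  induction m with
  | zero => simp
  | succ m ih =>
    have ih := ih (by omega)
    obtain ⟨k, hk⟩ : ∃ k, L - m = k + 1 := ⟨L - m - 1, by omega⟩
    have hk' : L - (m + 1) = k := by omega
    rw [hk] at ih
    rw [hk', pow_succ]
    have h1 := Nat.choose_succ_right_eq n k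
    have hkn : k ≤ n := by omega
    have h2 : (n.choose (k + 1) : ℚ) * (k + 1) = n.choose k * (n - k) := by
      have := congrArg (Nat.cast (R := ℚ)) h1
      push_cast [Nat.cast_sub hkn] at this
      exact this
    have hj : (k : ℚ) + 1 ≤ L := by
      have : k + 1 ≤ L := by omega
      exact_mod_cast this
    have hnq : (2 * L : ℚ) ≤ n := by exact_mod_cast hn
    have hn0q : (0 : ℚ) < n := by exact_mod_cast hn0
    have h3 : (n : ℚ) / 2 ≤ n - k := by linarith
    have h4 : (n.choose k : ℚ) ≤ (2 * L / n : ℚ) * n.choose (k + 1) := by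
      have h5 : (n.choose k : ℚ) * (n / 2) ≤ n.choose (k + 1) * L := by
        calc (n.choose k : ℚ) * (n / 2) ≤ n.choose k * (n - k) :=
              mul_le_mul_of_nonneg_left h3 (by positivity)
          _ = n.choose (k + 1) * (k + 1) := h2.symm
          _ ≤ n.choose (k + 1) * L := mul_le_mul_of_nonneg_left hj (by positivity)
      rw [div_mul_eq_mul_div, le_div_iff₀ hn0q]
      linarith
    calc (n.choose k : ℚ) ≤ (2 * L / n : ℚ) * n.choose (k + 1) := h4
      _ ≤ (2 * L / n : ℚ) * ((2 * L / n : ℚ) ^ m * n.choose L) :=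
          mul_le_mul_of_nonneg_left ih (by positivity)
      _ = _ := by ring

/-- A geometric sum. -/
theorem geom_le {y : ℚ} (hy0 : 0 ≤ y) (hy : y ≤ 1 / 2) (m : ℕ) : ∑ i ∈ range m, y ^ i ≤ 2 := by
  have h : ∀ m, ∑ i ∈ range m, y ^ i ≤ 2 - 2 * (1 / 2 : ℚ) ^ m := by
    intro m
    induction m with
    | zero => simp
    | succ m ih =>
      rw [sum_range_succ, pow_succ]
      have h1 : y ^ m ≤ (1 / 2 : ℚ) ^ m := pow_le_pow_left₀ hy0 hy m
      linarith
  have h2 : (0 : ℚ) ≤ (1 / 2) ^ m := by positivity
  linarith [h m]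

/-- The number of subsets with less than `L` elements. -/
theorem small_subsets {n L : ℕ} (hn : 4 * L ≤ n) (hL : 0 < L) :
    (((univ : Finset (Finset (Fin n))).filter fun S => S.card < L).card : ℚ) ≤
      4 * L / n * n.choose L := by
  set y : ℚ := 2 * L / n with hy
  have hn0 : 0 < n := by omega
  have hn0q : (0 : ℚ) < n := by exact_mod_cast hn0
  have hy0 : 0 ≤ y := by positivity
  have hy2 : y ≤ 1 / 2 := by
    rw [hy, div_le_iff₀ hn0q]
    have : (4 * L : ℚ) ≤ n := by exact_mod_cast hn
    linarith
  have h1 : ((univ : Finset (Finset (Fin n))).filter fun S => S.card < L).card =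
      ∑ l ∈ range L, n.choose l := by
    rw [card_eq_sum_card_fiberwise (t := range L) (f := fun S => S.card)
      (fun S hS => by
        rw [mem_coe, mem_filter] at hS
        rw [mem_coe, mem_range]
        exact hS.2)]
    refine sum_congr rfl fun l hl => ?_
    have h2 : ((univ : Finset (Finset (Fin n))).filter fun S => S.card < L).filter
        (fun S => S.card = l) = powersetCard l univ := by
      ext S
      rw [mem_filter, mem_filter, mem_powersetCard]
      have := mem_range.1 hl
      constructor
      · rintro ⟨_, h⟩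
        exact ⟨subset_univ _, h⟩
      · rintro ⟨_, h⟩
        exact ⟨⟨mem_univ _, by omega⟩, h⟩
    rw [h2, card_powersetCard, card_univ, Fintype.card_fin]
  rw [h1]
  push_cast
  calc ∑ l ∈ range L, (n.choose l : ℚ)
      = ∑ l ∈ range L, (n.choose (L - 1 - l) : ℚ) :=
        (sum_range_reflect (fun l => (n.choose l : ℚ)) L).symm
    _ ≤ ∑ l ∈ range L, y * n.choose L * y ^ l := by
        refine sum_le_sum fun l hl => ?_
        have hl' := mem_range.1 hl
        have h2 := choose_le (n := n) (L := L) (by omega) hn0 (l + 1) (by omega)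
        have h3 : L - (l + 1) = L - 1 - l := by omega
        rw [h3, ← hy] at h2
        refine h2.trans (le_of_eq ?_)
        rw [pow_succ]
        ring
    _ = y * n.choose L * ∑ l ∈ range L, y ^ l := by rw [mul_sum]
    _ ≤ y * n.choose L * 2 :=
        mul_le_mul_of_nonneg_left (geom_le hy0 hy2 _) (by positivity)
    _ = _ := by rw [hy]; ring

/-- The support of a word. -/
def supp {ι : Type*} [DecidableEq ι] (i0 : ι) {n : ℕ} (I : Fin n → ι) : Finset (Fin n) :=
  univ.filter fun t => I t ≠ i0

/-- The number of words with small support. -/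
theorem card_small {ι : Type*} [Fintype ι] [DecidableEq ι] (i0 : ι) {n L : ℕ} (hL : 0 < L) :
    ((univ : Finset (Fin n → ι)).filter fun I => (supp i0 I).card < L).card ≤
      ((univ : Finset (Finset (Fin n))).filter fun S => S.card < L).card *
        Fintype.card ι ^ (L - 1) := by
  classical
  have hι : 0 < Fintype.card ι := Fintype.card_pos_iff.2 ⟨i0⟩
  have h1 : ((univ : Finset (Fin n → ι)).filter fun I => (supp i0 I).card < L) ⊆
      ((univ : Finset (Finset (Fin n))).filter fun S => S.card < L).biUnion
        (fun S => univ.filter fun I => ∀ t, t ∉ S → I t = i0) := by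
    intro I hI
    rw [mem_filter] at hI
    rw [mem_biUnion]
    refine ⟨supp i0 I, mem_filter.2 ⟨mem_univ _, hI.2⟩, mem_filter.2 ⟨mem_univ _, fun t ht => ?_⟩⟩
    by_contra h
    exact ht (mem_filter.2 ⟨mem_univ _, h⟩)
  refine (card_le_card h1).trans ?_
  refine card_biUnion_le_card_mul _ _ _ fun S hS => ?_
  have h2 : (univ.filter fun I : Fin n → ι => ∀ t, t ∉ S → I t = i0).card ≤
      Fintype.card (S → ι) := by
    rw [← card_univ]
    refine card_le_card_of_injOn (fun I t => I t.1) (fun _ _ => mem_coe.2 (mem_univ _)) ?_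
    intro I hI I' hI' h
    rw [mem_coe, mem_filter] at hI hI'
    funext t
    by_cases ht : t ∈ S
    · exact congrFun h ⟨t, ht⟩
    · rw [hI.2 t ht, hI'.2 t ht]
  refine h2.trans ?_
  rw [Fintype.card_fun, Fintype.card_coe]
  exact Nat.pow_le_pow_right hι (by have := (mem_filter.1 hS).2; omega)

end Pool.Agent.H858.AD
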