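import Pool.Graph.R_seed8.Y163.Defs
import Pool.Graph.R_seed8.W534.PoleDefs
import Pool.Graph.R_seed8.H447R3.DegDefs

/-!
# The conjecture D for almost all classes: definitions
-/

set_option autoImplicit false

open CategoryTheory AlgebraicGeometry

universe u v

namespace Pool.Agent.H858.AD

open Pool.Agent.H914 Pool.Agent.H447 Pool.Agent.W534 Pool.Agent.Y163 VarClass Obj WeilCohomology

variable {k : Type u} [Field k] {𝒱 : VarClass k} {ops : CycleOps 𝒱}

/-- There is a divisor `E` on `X`, for example an ample divisor, with self-intersection number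
`E ^ (dim X) ≠ 0`. -/
def HasTop (W : WeilCohomology.{u, v} ops) (X : 𝒱.Obj) : Prop :=
  ∃ E : X.Cycles, X.IsCyc 1 E ∧ W.tr X (W.cl X E ^ X.dim) ≠ 0

/-- The external product of the classes `v` and `w`. -/
noncomputable def ext (W : WeilCohomology.{u, v} ops) (X : 𝒱.Obj) (v w : W.H X) :
    W.H (X.prod X) :=
  W.map (fst X X) v * W.map (snd X X) w

/-- The intersection number of the cycle `D` on `X × X` and of the external product of `v` and `w`. -/
noncomputable def val (W : WeilCohomology.{u, v} ops) (X : 𝒱.Obj) (D : (X.prod X).Cycles)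
    (v w : W.H X) : W.K :=
  W.tr (X.prod X) (W.cl (X.prod X) D * ext W X v w)

/-- The classes of degree `2 dim X - 1`. -/
def codegOne (W : WeilCohomology.{u, v} ops) (X : 𝒱.Obj) : Submodule W.K (W.H X) :=
  W.gr X (2 * X.dim - 1)

/-- There is a divisor on `X × X` whose component in `H^1(X) ⊗ H^1(X)` is not zero. -/
def HasMixed (W : WeilCohomology.{u, v} ops) (X : 𝒱.Obj) : Prop :=
  ∃ D : (X.prod X).Cycles, (X.prod X).IsCyc 1 D ∧
    ∃ v ∈ codegOne W X, ∃ w ∈ codegOne W X, val W X D v w ≠ 0

open Classical in
/-- The smallest degree `1` or `2` in which the cohomology of `X` is not zero: it is `1` if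
`b_1(X) > 0`, and `2` if `b_1(X) = 0`. -/
noncomputable def leadDeg (W : WeilCohomology.{u, v} ops) (X : 𝒱.Obj) : ℕ :=
  if W.gr X 1 = ⊥ then 2 else 1

open Classical in
/-- The number `L` of factors in the leading terms of the classes of codimension `j`: it is `2 j` if
`b_1(X) > 0`, and `j` if `b_1(X) = 0`. -/
noncomputable def leadNum (W : WeilCohomology.{u, v} ops) (X : 𝒱.Obj) (j : ℕ) : ℕ :=
  if W.gr X 1 = ⊥ then j else 2 * j

/-- The morphism `f : S → X` is injective on the cohomology of `X` of the smallest positive degree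
(this is true for a smooth linear section `S` of dimension two of `X`). -/
def InjectiveOnLead (W : WeilCohomology.{u, v} ops) {S X : 𝒱.Obj} (f : S ⟶ X) : Prop :=
  ∀ x ∈ W.gr X (leadDeg W X), W.map f x = 0 → x = 0

/-- The conjecture D is known for the leading terms of the classes of codimension `j` on the powers
of `X`: either there is a morphism `f : S → X`, injective on the cohomology of `X` of the smallest
positive degree, such that the conjecture D is true in codimension `j` for `S ^ L`; or `b_1(X) = 0`
and the classes of curves span `H^(2 dim X - 2)(X)`. -/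
def LeadIsKnown (W : WeilCohomology.{u, v} ops) (X : 𝒱.Obj) (j : ℕ) : Prop :=
  (∃ (S : 𝒱.Obj) (f : S ⟶ X), InjectiveOnLead W f ∧ HomEqNumIn W (pw S (leadNum W X j - 1)) j) ∨
    (W.gr X 1 = ⊥ ∧ W.gr X (2 * X.dim - 2) ≤ spanCycles W X (X.dim - 1 : ℕ))

/-- The dimension of the space of the classes of algebraic cycles of codimension `j` (with
coefficients in the field of coefficients of the cohomology theory). -/
noncomputable def algRank (W : WeilCohomology.{u, v} ops) (Z : 𝒱.Obj) (j : ℕ) : ℕ :=
  Module.finrank W.K (spanCycles W Z j)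

/-- The sum of all Betti numbers. -/
noncomputable def bettiSum (W : WeilCohomology.{u, v} ops) (X : 𝒱.Obj) : ℕ :=
  Module.finrank W.K (W.H X)

/-- The number `4 L b ^ (L - 1) b' / n`. -/
def loss (L b b' n : ℕ) : ℚ := 4 * L * b ^ (L - 1) * b' / n

/-- The rank of the group of the cycles of codimension `j` on `Z` modulo numerical equivalence is at
least `c` times the dimension of the space of the classes of algebraic cycles of codimension `j`. -/
def ShareAtLeast (W : WeilCohomology.{u, v} ops) (Z : 𝒱.Obj) (j : ℕ) (c : ℚ) : Prop :=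
  c * algRank W Z j ≤ numRank ops Z j

/-- The conjecture D in codimension `j` for `Y × X ^ (r + 1)` implies it for `Y × X ^ (n + 1)`. -/
def Propagates (W : WeilCohomology.{u, v} ops) (Y X : 𝒱.Obj) (j r n : ℕ) : Prop :=
  HomEqNumIn W (Y.prod (pw X r)) j → HomEqNumIn W (Y.prod (pw X n)) j

end Pool.Agent.H858.AD
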