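import Pool.Agent.H858.AD.Low
import Pool.Agent.H858.AD.Data

/-!
# Algebraic classes with a nonzero leading term
-/

set_option autoImplicit false
set_option linter.unusedSectionVars false
set_option linter.unusedVariables false

open CategoryTheory AlgebraicGeometry Finset

universe u v w

namespace Pool.Agent.H858.AD

open Pool.Agent.H914 hiding iter map_iter
open Pool.Agent.H447 Pool.Agent.W534 VarClass Obj WeilCohomology
open Pool.Agent.H281R3.HT Pool.Agent.W536.RR
open Pool.Agent.Y163 (pw pr tup tup_pr pw_hom_ext pr_zero_succ pr_succ dim_pw HBasis dualEq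
  dualEq_apply mon mon_eq exists_monBasis)
open Pool.Agent.H858.FC (PP PP_eq PP_gr PP_mul tr_PP PP_alg prod_filter_one)
open Pool.Agent.R940 (repr_zero)

variable {k : Type u} [Field k] {𝒱 : VarClass k} {ops : CycleOps 𝒱}
  {W : WeilCohomology.{u, v} ops} {X Y Z S : 𝒱.Obj}

theorem gr_pow {h : W.H X} (hh : h ∈ W.gr X 2) (n : ℕ) : h ^ n ∈ W.gr X (2 * n) := by
  induction n with
  | zero =>
    rw [pow_zero]
    exact W.one_mem X
  | succ n ih =>
    rw [pow_succ]
    have := W.mul_mem ih hh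
    rwa [show 2 * n + 2 = 2 * (n + 1) by ring] at this

theorem algSpan_pow {h : W.H X} (hh : h ∈ algSpan W X) (r : ℕ) : h ^ r ∈ algSpan W X := by
  induction r with
  | zero =>
    rw [pow_zero]
    exact one_mem_algSpan
  | succ r ih =>
    rw [pow_succ]
    exact algSpan_mul ih hh

theorem isPt_of_top {E : X.Cycles} (h1 : X.IsCyc 1 E) (h2 : W.tr X (W.cl X E ^ X.dim) ≠ 0) :
    IsPt W X (W.cl X E ^ X.dim) :=
  ⟨algSpan_pow (cl_mem_algSpan h1) _, gr_pow (W.cl_mem (p := 1) h1) _, h2⟩

/-- The leading term in degree two. -/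
theorem lead_two {E : X.Cycles} (h1 : X.IsCyc 1 E) (h2 : W.tr X (W.cl X E ^ X.dim) ≠ 0)
    (hd : 0 < X.dim) (m : ℕ) : HasLead W X m 2 (m + 1) := by
  set h := W.cl X E with hh
  have hg : h ∈ W.gr X 2 := W.cl_mem (p := 1) h1
  have hv : ∀ i : Fin (m + 1), h ^ (X.dim - 1) ∈ W.gr X (2 * X.dim - 2) := by
    intro i
    have := gr_pow hg (X.dim - 1)
    rwa [show 2 * (X.dim - 1) = 2 * X.dim - 2 by omega] at this
  refine ⟨PP W X m fun _ => h, PP_alg m fun _ => cl_mem_algSpan h1, ?_, fun _ => h ^ (X.dim - 1),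
    hv, ?_⟩
  · have := PP_gr m (x := fun _ => h) (d := fun _ => 2) (fun _ => hg)
    rwa [sum_const, card_univ, Fintype.card_fin, smul_eq_mul, mul_comm] at this
  · obtain ⟨ε, hε, h3⟩ := PP_mul m (x := fun _ => h) (y := fun _ => h ^ (X.dim - 1))
      (fun _ => hg) hv
    rw [h3, map_smul, smul_eq_mul, tr_PP]
    refine mul_ne_zero hε (prod_ne_zero_iff.2 fun _ _ => ?_)
    rw [← pow_succ', Nat.sub_add_cancel hd]
    exact h2

/-- The trace of an external product over three factors. -/
theorem tr_three {P : 𝒱.Obj} (a : W.H (X.prod X)) (b : W.H P) :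
    W.tr (X.prod (X.prod P)) (W.map (Obj.lift (fst X (X.prod P))
      (snd X (X.prod P) ≫ fst X P)) a * W.map (snd X (X.prod P) ≫ snd X P) b) =
      W.tr (X.prod X) a * W.tr P b := by
  obtain ⟨t, rfl⟩ := (W.kunneth X X).2 a
  induction t using TensorProduct.induction_on with
  | zero => rw [map_zero, map_zero, zero_mul, map_zero, map_zero, zero_mul]
  | tmul a1 a2 =>
    have e1 : kunnethMap (W.map (fst X X)) (W.map (snd X X)) (TensorProduct.tmul W.K a1 a2) =
        W.map (fst X X) a1 * W.map (snd X X) a2 := rfl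
    have e2 : W.map (Obj.lift (fst X (X.prod P)) (snd X (X.prod P) ≫ fst X P))
        (W.map (fst X X) a1 * W.map (snd X X) a2) * W.map (snd X (X.prod P) ≫ snd X P) b =
        W.map (fst X (X.prod P)) a1 * W.map (snd X (X.prod P))
          (W.map (fst X P) a2 * W.map (snd X P) b) := by
      rw [map_mul, ← W.map_comp, ← W.map_comp, Obj.lift_fst, Obj.lift_snd, W.map_comp,
        W.map_comp (snd X (X.prod P)) (snd X P), mul_assoc, ← map_mul]
    rw [e1, e2, W.tr_prod, W.tr_prod, W.tr_prod, mul_assoc]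
  | add x y hx hy => rw [map_add, map_add, add_mul, map_add, hx, hy, map_add, add_mul]

/-- Two more factors. -/
theorem lead_step {θ : W.H (X.prod X)} (hθ : θ ∈ algSpan W (X.prod X))
    (hθg : θ ∈ W.gr (X.prod X) 2) {v w : W.H X} (hv : v ∈ W.gr X (2 * X.dim - 1))
    (hw : w ∈ W.gr X (2 * X.dim - 1))
    (htr : W.tr (X.prod X) (θ * (W.map (fst X X) v * W.map (snd X X) w)) ≠ 0) {m j : ℕ}
    (h : HasLead W X m 1 j) : HasLead W X (m + 2) 1 (j + 1) := by
  obtain ⟨ζ, hζ, hζg, V, hV, hζV⟩ := h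
  have key : ∀ (α : X.prod (X.prod (pw X m)) ⟶ X.prod X) (β : X.prod (X.prod (pw X m)) ⟶ pw X m),
      α = Obj.lift (fst X (X.prod (pw X m))) (snd X (X.prod (pw X m)) ≫ fst X (pw X m)) →
      β = snd X (X.prod (pw X m)) ≫ snd X (pw X m) →
      W.map α θ * W.map β ζ ∈ W.gr (X.prod (X.prod (pw X m))) (2 * (j + 1)) ∧
      W.tr (X.prod (X.prod (pw X m))) ((W.map α θ * W.map β ζ) *
        (W.map (fst X (X.prod (pw X m))) v * W.map (snd X (X.prod (pw X m)))
          (W.map (fst X (pw X m)) w * W.map (snd X (pw X m)) (PP W X m V)))) ≠ 0 := by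
    intro α β hα hβ
    constructor
    · have h1 := W.mul_mem (W.map_mem α hθg) (W.map_mem β hζg)
      have h2 : 2 + 2 * j = 2 * (j + 1) := by ring
      rwa [h2] at h1
    · have h1 : W.map (fst X (X.prod (pw X m))) v * W.map (snd X (X.prod (pw X m)))
          (W.map (fst X (pw X m)) w * W.map (snd X (pw X m)) (PP W X m V)) =
          W.map α (W.map (fst X X) v * W.map (snd X X) w) * W.map β (PP W X m V) := by
        rw [map_mul, map_mul, hα, hβ, ← W.map_comp, ← W.map_comp, ← W.map_comp, ← W.map_comp,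
          Obj.lift_fst, Obj.lift_snd, mul_assoc]
      have h3 : W.map α θ * W.map β ζ * (W.map α (W.map (fst X X) v * W.map (snd X X) w) *
          W.map β (PP W X m V)) =
          W.map α (θ * (W.map (fst X X) v * W.map (snd X X) w)) * W.map β (ζ * PP W X m V) := by
        rw [mul_assoc, ← mul_assoc (W.map β ζ), algSpan_comm (algSpan_map β hζ), mul_assoc,
          ← map_mul, ← mul_assoc, ← map_mul]
      rw [h1, h3, hα, hβ, tr_three]
      exact mul_ne_zero htr hζV
  obtain ⟨h1, h2⟩ := key _ _ rfl rfl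
  refine ⟨(W.map (Obj.lift (fst X (X.prod (pw X m))) (snd X (X.prod (pw X m)) ≫
    fst X (pw X m))) θ * W.map (snd X (X.prod (pw X m)) ≫ snd X (pw X m)) ζ :
      W.H (X.prod (X.prod (pw X m)))),
    algSpan_mul (algSpan_map _ hθ) (algSpan_map _ hζ), h1, Fin.cons v (Fin.cons w V), ?_, h2⟩
  intro i
  refine Fin.cases hv (fun i => ?_) i
  refine Fin.cases hw (fun i => hV i) i

/-- The leading term in degree one. -/
theorem lead_one {θ : W.H (X.prod X)} (hθ : θ ∈ algSpan W (X.prod X))
    (hθg : θ ∈ W.gr (X.prod X) 2) {v w : W.H X} (hv : v ∈ W.gr X (2 * X.dim - 1))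
    (hw : w ∈ W.gr X (2 * X.dim - 1))
    (htr : W.tr (X.prod X) (θ * (W.map (fst X X) v * W.map (snd X X) w)) ≠ 0) (j : ℕ) :
    HasLead W X (2 * j + 1) 1 (j + 1) := by
  induction j with
  | zero =>
    refine ⟨θ, hθ, hθg, ![v, w], ?_, ?_⟩
    · intro i
      fin_cases i
      · exact hv
      · exact hw
    · exact htr
  | succ j ih => exact lead_step hθ hθg hv hw htr ih

end Pool.Agent.H858.AD
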