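import Pool.Agent.H858.AD.Ext

/-!
# Independent algebraic classes, and the number of numerically trivial classes
-/

set_option autoImplicit false
set_option linter.unusedSectionVars false
set_option linter.unusedVariables false

open CategoryTheory AlgebraicGeometry Finset

universe u v w

namespace Pool.Agent.H858.AD

open Pool.Agent.H914 hiding iter map_iter
open Pool.Agent.H447 Pool.Agent.W534 VarClass Obj WeilCohomology
open Pool.Agent.H281R3.HT Pool.Agent.W536.RR
open Pool.Agent.Y163 (pw pr tup tup_pr pw_hom_ext pr_zero_succ pr_succ dim_pw HBasis dualEq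
  dualEq_apply mon mon_eq exists_monBasis)
open Pool.Agent.H858.FC (PP PP_eq PP_gr PP_mul tr_PP PP_alg prod_filter_one)
open Pool.Agent.R940 (repr_zero)
open Pool.Agent.Y133.Half (spanCycles_of_algSpan)
open Pool.Agent.R936 (span_le_algSpan)

variable {k : Type u} [Field k] {𝒱 : VarClass k} {ops : CycleOps 𝒱}
  {W : WeilCohomology.{u, v} ops} {X Y Z S : 𝒱.Obj}

section

variable {ιY ι : Type v} [Fintype ιY] [Fintype ι] [DecidableEq ιY] [DecidableEq ι]
  {BY : HBasis W Y ιY} {B : HBasis W X ι}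

/-- The pairing of the letters with a point. -/
theorem tr_pt {i0 : ι} (h0 : B.deg i0 = 0) (h1 : ∃ c : W.K, c ≠ 0 ∧ B.b i0 = c • (1 : W.H X))
    (hi0 : ∀ i, B.deg i = 0 → i = i0) {pX : W.H X} (hpX : IsPt W X pX) (l : ι) :
    W.tr X (B.b l * pX) ≠ 0 ↔ l = i0 := by
  constructor
  · intro h
    apply hi0
    by_contra hne
    exact h (W.tr_eq_zero (W.mul_mem (B.mem l) hpX.gr) (by omega))
  · rintro rfl
    obtain ⟨c, hc, h2⟩ := h1
    rw [h2, smul_mul_assoc, one_mul, map_smul, smul_eq_mul]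
    exact mul_ne_zero hc hpX.tr

/-- Letters of positive degree have degree at least `c`. -/
theorem deg_ge {c : ℕ} (hc : ∀ i, 0 < i → i < c → W.gr X i = ⊥) {i0 : ι}
    (hi0 : ∀ i, B.deg i = 0 → i = i0) {l : ι} (hl : l ≠ i0) : c ≤ B.deg l := by
  by_contra h
  have h1 : B.deg l ≠ 0 := fun h => hl (hi0 l h)
  have h2 := B.mem l
  rw [hc _ (by omega) (not_le.1 h), Submodule.mem_bot] at h2
  exact B.b.ne_zero l h2

/-- The coefficients of numerically trivial classes at the good words vanish. -/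
theorem good_zero {n m j c : ℕ} (hcL : c * (m + 1) = 2 * j) (hc0 : 0 < c)
    (hc : ∀ i, 0 < i → i < c → W.gr X i = ⊥)
    {b : Module.Basis (ιY × (Fin (n + 1) → ι)) W.K (W.H (Y.prod (pw X n)))}
    (hb : ∀ a, b a = EE W Y X n (BY.b a.1) (fun t => B.b (a.2 t)))
    {i0 : ι} (h0 : B.deg i0 = 0) (h1 : ∃ c : W.K, c ≠ 0 ∧ B.b i0 = c • (1 : W.H X))
    (hi0 : ∀ i, B.deg i = 0 → i = i0)
    {y0 : ιY} (h0Y : BY.deg y0 = 0) (h1Y : ∃ c : W.K, c ≠ 0 ∧ BY.b y0 = c • (1 : W.H Y))
    (hy0 : ∀ i, BY.deg i = 0 → i = y0)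
    {x : W.H (Y.prod (pw X n))} (hx : x ∈ numZ W (Y.prod (pw X n)))
    (hxg : x ∈ W.gr (Y.prod (pw X n)) (2 * j)) (hD : LD W X m c j)
    {pX : W.H X} (hpX : IsPt W X pX) {pY : W.H Y} (hpY : IsPt W Y pY)
    (a : ιY × (Fin (n + 1) → ι)) (ha : m + 1 ≤ (supp i0 a.2).card) : b.repr x a = 0 := by
  classical
  by_cases hdeg : BY.deg a.1 + ∑ t, B.deg (a.2 t) = 2 * j
  swap
  · refine repr_zero (W.isInternal _).submodule_iSupIndep b
      (fun a => BY.deg a.1 + ∑ t, B.deg (a.2 t)) (fun a => ?_) hxg hdeg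
    rw [hb]
    exact EE_gr (BY.mem _) fun t => B.mem _
  have hsum : ∑ t ∈ supp i0 a.2, B.deg (a.2 t) ≤ ∑ t, B.deg (a.2 t) :=
    sum_le_sum_of_subset (subset_univ _)
  have hge : ∀ t ∈ supp i0 a.2, c ≤ B.deg (a.2 t) := fun t ht =>
    deg_ge hc hi0 (mem_filter.1 ht).2
  have hsum2 : (supp i0 a.2).card * c ≤ ∑ t ∈ supp i0 a.2, B.deg (a.2 t) := by
    have := card_nsmul_le_sum _ _ _ hge
    rwa [smul_eq_mul] at this
  have hcard : (supp i0 a.2).card = m + 1 := by
    refine le_antisymm ?_ ha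
    by_contra h
    have h2 : (m + 2) * c ≤ (supp i0 a.2).card * c := Nat.mul_le_mul_right _ (by omega)
    have h3 : (m + 2) * c = c * (m + 1) + c := by ring
    omega
  rw [hcard, mul_comm] at hsum2
  have hy : BY.deg a.1 = 0 := by omega
  have hall : ∀ t ∈ supp i0 a.2, B.deg (a.2 t) = c := by
    by_contra hcon
    push Not at hcon
    obtain ⟨t, ht, hne⟩ := hcon
    have h2 : ∑ t ∈ supp i0 a.2, c < ∑ t ∈ supp i0 a.2, B.deg (a.2 t) :=
      sum_lt_sum hge ⟨t, ht, lt_of_le_of_ne (hge t ht) (Ne.symm hne)⟩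
    rw [sum_const, smul_eq_mul, hcard, mul_comm] at h2
    omega
  obtain ⟨U, hUg, hU⟩ := exists_dual B.b.linearIndependent (fun l => B.mem l)
  set u : Fin (n + 1) → W.H X := fun t => if t ∈ supp i0 a.2 then U (a.2 t) else pX with hu
  have hug : ∀ t, u t ∈ W.gr X (if t ∈ supp i0 a.2 then 2 * X.dim - B.deg (a.2 t) else
      2 * X.dim) := by
    intro t
    simp only [hu]
    split_ifs
    · exact hUg _
    · exact hpX.gr
  have h2 := ext_good hx hxg hD (supp i0 a.2) hcard hpX hpY hUg a.2 hall (u := u)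
    (fun t ht => by simp only [hu]; rw [if_pos ht]) (fun t ht => by simp only [hu]; rw [if_neg ht])
  refine coef_word hb hpY.gr hug a (fun l => ?_) (fun t l => ?_) h2
  · rw [tr_pt h0Y h1Y hy0 hpY, hy0 _ hy]
  · simp only [hu]
    by_cases ht : t ∈ supp i0 a.2
    · rw [if_pos ht, hU]
      constructor
      · intro h
        by_contra h'
        exact h (if_neg h')
      · intro h
        rw [if_pos h]
        exact one_ne_zero
    · rw [if_neg ht, tr_pt h0 h1 hi0 hpX]
      have h3 : a.2 t = i0 := by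
        by_contra h'
        exact ht (mem_filter.2 ⟨mem_univ _, h'⟩)
      rw [h3]

/-- The coefficients at the words with small support, under the conjecture D for few factors. -/
theorem small_zero {n m j : ℕ} (hmn : m ≤ n)
    {b : Module.Basis (ιY × (Fin (n + 1) → ι)) W.K (W.H (Y.prod (pw X n)))}
    (hb : ∀ a, b a = EE W Y X n (BY.b a.1) (fun t => B.b (a.2 t)))
    {i0 : ι} (h0 : B.deg i0 = 0) (h1 : ∃ c : W.K, c ≠ 0 ∧ B.b i0 = c • (1 : W.H X))
    (hi0 : ∀ i, B.deg i = 0 → i = i0)
    {x : W.H (Y.prod (pw X n))} (hx : x ∈ numZ W (Y.prod (pw X n)))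
    (hxg : x ∈ W.gr (Y.prod (pw X n)) (2 * j)) (hD : HomEqNumIn W (Y.prod (pw X m)) j)
    {pX : W.H X} (hpX : IsPt W X pX)
    (a : ιY × (Fin (n + 1) → ι)) (ha : (supp i0 a.2).card ≤ m + 1) : b.repr x a = 0 := by
  classical
  obtain ⟨T, hT1, hT2⟩ := exists_superset_card_eq (n := m + 1) ha (by rw [Fintype.card_fin]; omega)
  obtain ⟨U, hUg, hU⟩ := exists_dual B.b.linearIndependent (fun l => B.mem l)
  obtain ⟨UY, hUYg, hUY⟩ := exists_dual BY.b.linearIndependent (fun l => BY.mem l)
  set u : Fin (n + 1) → W.H X := fun t => if t ∈ T then U (a.2 t) else pX with hu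
  have hug : ∀ t, u t ∈ W.gr X (if t ∈ T then 2 * X.dim - B.deg (a.2 t) else 2 * X.dim) := by
    intro t
    simp only [hu]
    split_ifs
    · exact hUg _
    · exact hpX.gr
  have h2 := ext_D hx hxg hD T hT2 hpX (hUYg a.1) hug (fun t ht => by
    simp only [hu]; rw [if_neg ht])
  refine coef_word hb (hUYg a.1) hug a (fun l => ?_) (fun t l => ?_) h2
  · rw [hUY]
    constructor
    · intro h
      by_contra h'
      exact h (if_neg h')
    · intro h
      rw [if_pos h]
      exact one_ne_zero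
  · simp only [hu]
    by_cases ht : t ∈ T
    · rw [if_pos ht, hU]
      constructor
      · intro h
        by_contra h'
        exact h (if_neg h')
      · intro h
        rw [if_pos h]
        exact one_ne_zero
    · rw [if_neg ht, tr_pt h0 h1 hi0 hpX]
      have h3 : a.2 t = i0 := by
        by_contra h'
        exact ht (hT1 (mem_filter.2 ⟨mem_univ _, h'⟩))
      rw [h3]

/-- The numerically trivial classes of codimension `j`. -/
noncomputable def NT (W : WeilCohomology.{u, v} ops) (Z : 𝒱.Obj) (j : ℕ) :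
    Submodule W.K (W.H Z) := numZ W Z ⊓ W.gr Z (2 * j)

/-- A subspace of classes whose coefficients vanish outside of a set of words. -/
theorem finrank_le_of_repr {K V α : Type*} [Field K] [AddCommGroup V] [Module K V] [Fintype α]
    [DecidableEq α] (b : Module.Basis α K V) (N : Submodule K V) (A : Finset α)
    (h : ∀ x ∈ N, ∀ a, a ∉ A → b.repr x a = 0) : Module.finrank K N ≤ A.card := by
  classical
  have hle : N ≤ Submodule.span K ((A.image b : Finset V) : Set V) := by
    intro c hc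
    rw [← b.sum_repr c]
    refine Submodule.sum_mem _ fun a _ => ?_
    by_cases h0 : a ∈ A
    · refine Submodule.smul_mem _ _ (Submodule.subset_span ?_)
      rw [mem_coe]
      exact mem_image_of_mem _ h0
    · rw [h c hc a h0, zero_smul]
      exact Submodule.zero_mem _
  have := Module.Finite.of_basis b
  exact (Submodule.finrank_mono hle).trans ((finrank_span_finset_le_card _).trans card_image_le)

/-- The number of the numerically trivial classes. -/
theorem finrank_NT {n m j c : ℕ} (hcL : c * (m + 1) = 2 * j) (hc0 : 0 < c)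
    (hc : ∀ i, 0 < i → i < c → W.gr X i = ⊥) (hD : LD W X m c j)
    {pX : W.H X} (hpX : IsPt W X pX) {pY : W.H Y} (hpY : IsPt W Y pY) :
    Module.finrank W.K (NT W (Y.prod (pw X n)) j) ≤
      Module.finrank W.K (W.H Y) * (((univ : Finset (Finset (Fin (n + 1)))).filter
        fun S => S.card < m + 1).card * Module.finrank W.K (W.H X) ^ m) := by
  classical
  obtain ⟨ι, hι, ⟨B⟩⟩ := Pool.Agent.Y163.exists_hbasis W X
  obtain ⟨ιY, hιY, ⟨BY⟩⟩ := Pool.Agent.Y163.exists_hbasis W Y
  have := Fintype.ofFinite ι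
  have := Fintype.ofFinite ιY
  have hX1 : (1 : W.H X) ≠ 0 := by
    intro h
    apply hpX.tr
    rw [← mul_one pX, h, mul_zero, map_zero]
  have hY1 : (1 : W.H Y) ≠ 0 := by
    intro h
    apply hpY.tr
    rw [← mul_one pY, h, mul_zero, map_zero]
  obtain ⟨i0, h0, h1, hi0⟩ := exists_unit (B := B) hX1
  obtain ⟨y0, h0Y, h1Y, hy0⟩ := exists_unit (B := BY) hY1
  obtain ⟨b, hb⟩ := exists_wbasis BY B n
  rw [Module.finrank_eq_card_basis B.b, Module.finrank_eq_card_basis BY.b]
  refine (finrank_le_of_repr b _ (univ.filter fun a => (supp i0 a.2).card < m + 1) ?_).trans ?_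
  · intro x hx a ha
    refine good_zero hcL hc0 hc hb h0 h1 hi0 h0Y h1Y hy0 hx.1 hx.2 hD hpX hpY a ?_
    by_contra h
    exact ha (mem_filter.2 ⟨mem_univ _, not_le.1 h⟩)
  · have h2 : (univ.filter fun a : ιY × (Fin (n + 1) → ι) => (supp i0 a.2).card < m + 1) =
        univ ×ˢ (univ.filter fun I : Fin (n + 1) → ι => (supp i0 I).card < m + 1) := by
      ext a
      simp
    rw [h2, card_product, card_univ]
    refine Nat.mul_le_mul_left _ ?_
    exact card_small i0 (Nat.succ_pos m)

/-- A class on `X ^ (m + 1)` with a nonzero component in the tensor power of `H ^ c(X)`. -/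
def HasLead (W : WeilCohomology.{u, v} ops) (X : 𝒱.Obj) (m c j : ℕ) : Prop :=
  ∃ ζ ∈ algSpan W (pw X m), ζ ∈ W.gr (pw X m) (2 * j) ∧ ∃ v : Fin (m + 1) → W.H X,
    (∀ i, v i ∈ W.gr X (2 * X.dim - c)) ∧ W.tr (pw X m) (ζ * PP W X m v) ≠ 0

/-- **Independent algebraic classes.** -/
theorem low {n m j c : ℕ} (hc0 : 0 < c) (hcd : c ≤ 2 * X.dim) (hL : HasLead W X m c j)
    {pX : W.H X} (hpX : IsPt W X pX) {pY : W.H Y} (hpY : IsPt W Y pY) :
    (n + 1).choose (m + 1) ≤ Module.finrank W.K (spanCycles W (Y.prod (pw X n)) j) := by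
  classical
  obtain ⟨ζ, hζ, hζg, v, hv, hζv⟩ := hL
  obtain ⟨ι, hι, ⟨B⟩⟩ := Pool.Agent.Y163.exists_hbasis W X
  have := Fintype.ofFinite ι
  obtain ⟨bm, hbm⟩ := exists_monBasis B m
  -- the leading word
  obtain ⟨J, hJ1, hJ2⟩ : ∃ J : Fin (m + 1) → ι, bm.repr ζ J ≠ 0 ∧ ∀ i, B.deg (J i) = c := by
    by_contra hcon
    push Not at hcon
    apply hζv
    rw [← bm.sum_repr ζ, Finset.sum_mul, map_sum]
    refine sum_eq_zero fun J _ => ?_
    by_cases h0 : bm.repr ζ J = 0
    · rw [h0, zero_smul, zero_mul, map_zero]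
    · obtain ⟨i, hi⟩ := hcon J h0
      rw [smul_mul_assoc, map_smul, hbm, mon_PP]
      obtain ⟨ε, hε, h1⟩ := PP_mul m (x := fun i => B.b (J i)) (y := v) (fun i => B.mem (J i)) hv
      rw [h1, map_smul, tr_PP, prod_eq_zero (mem_univ i), smul_zero, smul_zero]
      exact W.tr_eq_zero (W.mul_mem (B.mem _) (hv i)) (by omega)
  obtain ⟨U, hUg, hU⟩ := exists_dual B.b.linearIndependent (fun l => B.mem l)
  choose τ hτ hτT hτP using fun T : {T : Finset (Fin (n + 1)) // T.card = m + 1} =>
    exists_enum (W := W) (X := X) T.1 T.2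
  set g : ∀ T : {T : Finset (Fin (n + 1)) // T.card = m + 1}, Y.prod (pw X n) ⟶ pw X m :=
    fun T => snd Y (pw X n) ≫ tup m fun i => pr X n (τ T i) with hg
  set u : ∀ T : {T : Finset (Fin (n + 1)) // T.card = m + 1}, Fin (n + 1) → W.H X :=
    fun T => Function.extend (τ T) (fun i => U (J i)) (fun _ => pX) with hu
  have hug : ∀ T t, u T t ∈ W.gr X (if t ∈ T.1 then 2 * X.dim - c else 2 * X.dim) := by
    intro T t
    simp only [hu]
    by_cases ht : t ∈ T.1
    · obtain ⟨i, rfl⟩ := (hτT T t).1 ht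
      rw [(hτ T).extend_apply, if_pos ht, ← hJ2 i]
      exact hUg _
    · rw [Function.extend_apply' _ _ _ (fun h => ht ((hτT T t).2 h)), if_neg ht]
      exact hpX.gr
  have hmono : ∀ (T T' : {T : Finset (Fin (n + 1)) // T.card = m + 1}) (I : Fin (m + 1) → ι),
      ∃ ε : W.K, ε ≠ 0 ∧ W.tr (Y.prod (pw X n)) (W.map (g T) (bm I) * EE W Y X n pY (u T')) =
        ε * (W.tr Y pY * ∏ t, W.tr X (Function.extend (τ T) (fun i => B.b (I i)) (fun _ => 1) t *
          u T' t)) := by
    intro T T' I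
    have h1 : W.map (g T) (bm I) = EE W Y X n 1
        (Function.extend (τ T) (fun i => B.b (I i)) (fun _ => 1)) := by
      rw [hbm, mon_PP, hg, W.map_comp, hτP, EE, map_one, one_mul]
    have h2 : ∀ t, Function.extend (τ T) (fun i => B.b (I i)) (fun _ => (1 : W.H X)) t ∈
        W.gr X (Function.extend (τ T) (fun i => B.deg (I i)) (fun _ => 0) t) := by
      intro t
      by_cases ht : ∃ i, τ T i = t
      · obtain ⟨i, rfl⟩ := ht
        rw [(hτ T).extend_apply, (hτ T).extend_apply]
        exact B.mem _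
      · rw [Function.extend_apply' _ _ _ ht, Function.extend_apply' _ _ _ ht]
        exact W.one_mem X
    obtain ⟨ε, hε, h3⟩ := tr_EE (n := n) (W.one_mem Y) hpY.gr h2 (hug T')
    refine ⟨ε, hε, ?_⟩
    rw [h1, h3, one_mul]
  have hpair : ∀ T T', (W.tr (Y.prod (pw X n)) (W.map (g T) ζ * EE W Y X n pY (u T')) ≠ 0 ↔
      T = T') := by
    intro T T'
    set ψ : W.H (pw X m) →ₗ[W.K] W.K := W.tr (Y.prod (pw X n)) ∘ₗ
      LinearMap.mulRight W.K (EE W Y X n pY (u T')) ∘ₗ (W.map (g T)).toLinearMap with hψ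
    change ψ ζ ≠ 0 ↔ T = T'
    have hψb : ∀ I, ψ (bm I) = W.tr (Y.prod (pw X n)) (W.map (g T) (bm I) *
        EE W Y X n pY (u T')) := fun I => rfl
    constructor
    · intro h1
      by_contra hne
      apply h1
      -- a factor in `T'` which is not in `T`
      obtain ⟨t, ht, ht'⟩ : ∃ t ∈ T'.1, t ∉ T.1 := by
        by_contra hcon
        push Not at hcon
        exact hne (Subtype.ext (eq_of_subset_of_card_le hcon (by rw [T.2, T'.2])).symm)
      rw [← bm.sum_repr ζ, map_sum]
      refine sum_eq_zero fun I _ => ?_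
      rw [map_smul, hψb]
      obtain ⟨ε, hε, h2⟩ := hmono T T' I
      rw [h2, prod_eq_zero (mem_univ t), mul_zero, mul_zero, smul_zero]
      rw [Function.extend_apply' _ _ _ (fun h => ht' ((hτT T t).2 h)), one_mul]
      have h3 := hug T' t
      rw [if_pos ht] at h3
      exact W.tr_eq_zero h3 (by omega)
    · rintro rfl
      have hkey : ∀ I, ψ (bm I) ≠ 0 ↔ I = J := by
        intro I
        rw [hψb]
        obtain ⟨ε, hε, h2⟩ := hmono T T I
        rw [h2]
        constructor
        · intro h3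
          have h4 := prod_ne_zero_iff.1 (right_ne_zero_of_mul (right_ne_zero_of_mul h3))
          funext i
          have h5 := h4 (τ T i) (mem_univ _)
          simp only [hu] at h5
          rw [(hτ T).extend_apply, (hτ T).extend_apply, hU] at h5
          by_contra h6
          exact h5 (if_neg h6)
        · rintro rfl
          refine mul_ne_zero hε (mul_ne_zero hpY.tr (prod_ne_zero_iff.2 fun t _ => ?_))
          by_cases ht : ∃ i, τ T i = t
          · obtain ⟨i, rfl⟩ := ht
            simp only [hu]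
            rw [(hτ T).extend_apply, (hτ T).extend_apply, hU, if_pos rfl]
            exact one_ne_zero
          · simp only [hu]
            rw [Function.extend_apply' _ _ _ ht, Function.extend_apply' _ _ _ ht, one_mul]
            exact hpX.tr
      intro h1
      refine hJ1 (coef_lin ψ ((hkey J).2 rfl) (fun I hI => ?_) h1)
      by_contra h2
      exact hI ((hkey I).1 h2)
  have hmem : ∀ T, W.map (g T) ζ ∈ spanCycles W (Y.prod (pw X n)) j := fun T =>
    spanCycles_of_algSpan (algSpan_map _ hζ) (W.map_mem _ hζg)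
  have hli : LinearIndependent W.K (fun T : {T : Finset (Fin (n + 1)) // T.card = m + 1} =>
      (⟨W.map (g T) ζ, hmem T⟩ : spanCycles W (Y.prod (pw X n)) j)) := by
    rw [Fintype.linearIndependent_iff]
    intro a ha T
    have h1 := congrArg Subtype.val ha
    rw [Submodule.coe_sum] at h1
    have h2 := congrArg (fun x => W.tr (Y.prod (pw X n)) (x * EE W Y X n pY (u T))) h1
    simp only [Submodule.coe_smul, Finset.sum_mul, map_sum, smul_mul_assoc, map_smul, smul_eq_mul,
      Submodule.coe_zero, zero_mul, map_zero] at h2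
    rw [Finset.sum_eq_single T] at h2
    · exact (mul_eq_zero.1 h2).resolve_right ((hpair T T).2 rfl)
    · intro T' _ hT'
      by_contra h3
      exact hT' ((hpair T' T).1 (right_ne_zero_of_mul h3))
    · intro h3
      exact absurd (mem_univ _) h3
  have h1 := hli.fintype_card_le_finrank
  have h2 : Fintype.card {T : Finset (Fin (n + 1)) // T.card = m + 1} = (n + 1).choose (m + 1) := by
    rw [Fintype.card_finset_len, Fintype.card_fin]
  rwa [h2] at h1

end

end Pool.Agent.H858.AD
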