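import Pool.Agent.H858.AD.Lead

/-!
# The conjecture D for almost all classes
-/

set_option autoImplicit false
set_option linter.unusedSectionVars false
set_option linter.unusedVariables false

open CategoryTheory AlgebraicGeometry Finset

universe u v w

namespace Pool.Agent.H858.AD

open Pool.Agent.H914 hiding iter map_iter
open Pool.Agent.H447 Pool.Agent.W534 VarClass Obj WeilCohomology
open Pool.Agent.H281R3.HT Pool.Agent.W536.RR
open Pool.Agent.Y163 (pw pr dim_pw HBasis exists_hbasis)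
open Pool.Agent.R936 (span_le_algSpan)

variable {k : Type u} [Field k] {𝒱 : VarClass k} {ops : CycleOps 𝒱}
  {W : WeilCohomology.{u, v} ops} {X Y Z S : 𝒱.Obj}

/-- The kernel of the intersection pairing consists of numerically trivial classes. -/
theorem mem_NT_of_ker {j l : ℕ} (hjl : j + l = Z.dim) {x : spanCycles W Z j}
    (hx : pair W Z j l x = 0) : (x : W.H Z) ∈ NT W Z j := by
  refine ⟨⟨span_le_algSpan x.2, mem_transc.2 fun c hc => ?_⟩, Pool.Agent.H914.span_gr x.2⟩
  refine algSpan_induction (p := fun c => W.tr Z ((x : W.H Z) * c) = 0) ?_ ?_ ?_ ?_ hc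
  · rw [mul_zero, map_zero]
  · intro a b ha hb
    rw [mul_add, map_add, ha, hb, add_zero]
  · intro t a ha
    rw [mul_smul_comm, map_smul, ha, smul_zero]
  · intro i w hw
    by_cases hi : i = l
    · subst hi
      exact congrArg (fun F => F ⟨_, mem_span_cl hw⟩) hx
    · exact W.tr_eq_zero (W.mul_mem (Pool.Agent.H914.span_gr x.2) (W.cl_mem hw)) (by omega)

theorem finrank_ker_le {j l : ℕ} (hjl : j + l = Z.dim) :
    Module.finrank W.K (LinearMap.ker (pair W Z j l)) ≤ Module.finrank W.K (NT W Z j) := by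
  refine LinearMap.finrank_le_finrank_of_injective (f := LinearMap.codRestrict (NT W Z j)
    ((spanCycles W Z j).subtype ∘ₗ (LinearMap.ker (pair W Z j l)).subtype)
    (fun x => mem_NT_of_ker hjl (LinearMap.mem_ker.1 x.2))) ?_
  intro x y h
  have h1 := congrArg Subtype.val h
  exact Subtype.ext (Subtype.ext h1)

/-- The rank of the group of cycles modulo numerical equivalence. -/
theorem numRank_ge {j : ℕ} (hj : j ≤ Z.dim) :
    Module.finrank W.K (spanCycles W Z j) ≤ numRank ops Z j + Module.finrank W.K (NT W Z j) := by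
  rw [numRank_eq (W := W) hj, kRank]
  have h1 := LinearMap.finrank_range_add_finrank_ker (pair W Z j (Z.dim - j))
  have h2 := finrank_ker_le (W := W) (Z := Z) (j := j) (l := Z.dim - j) (by omega)
  omega

theorem D_of_NT {j : ℕ} (h : ∀ x ∈ NT W Z j, x = 0) : HomEqNumIn W Z j := by
  by_cases hj : j ≤ Z.dim
  · refine homEqNumIn_of_pair (l := Z.dim - j) (by omega) ?_
    rw [injective_iff_map_eq_zero]
    intro x hx
    exact Subtype.ext (h _ (mem_NT_of_ker (by omega) hx))
  · intro z hz _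
    have h1 := W.cl_mem hz
    rw [W.gr_eq_bot Z _ (by omega), Submodule.mem_bot] at h1
    exact h1

/-- **The conjecture D for almost all classes.** -/
theorem share {m j c : ℕ} (hcL : c * (m + 1) = 2 * j) (hc0 : 0 < c) (hcd : c ≤ 2 * X.dim)
    (hc : ∀ i, 0 < i → i < c → W.gr X i = ⊥) (hL : HasLead W X m c j) (hD : LD W X m c j)
    {pX : W.H X} (hpX : IsPt W X pX) {pY : W.H Y} (hpY : IsPt W Y pY) (n : ℕ) :
    (1 - loss (m + 1) (bettiSum W X) (bettiSum W Y) (n + 1)) * algRank W (Y.prod (pw X n)) j ≤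
      numRank ops (Y.prod (pw X n)) j := by
  set b := bettiSum W X with hb
  set b' := bettiSum W Y with hb'
  have hn0 : (0 : ℚ) < ((n + 1 : ℕ) : ℚ) := by positivity
  have hX1 : (1 : W.H X) ≠ 0 := by
    intro h
    apply hpX.tr
    rw [← mul_one pX, h, mul_zero, map_zero]
  have hY1 : (1 : W.H Y) ≠ 0 := by
    intro h
    apply hpY.tr
    rw [← mul_one pY, h, mul_zero, map_zero]
  have hb1 : 1 ≤ b := by
    have : Nontrivial (W.H X) := ⟨⟨1, 0, hX1⟩⟩
    exact Module.finrank_pos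
  have hb1' : 1 ≤ b' := by
    have : Nontrivial (W.H Y) := ⟨⟨1, 0, hY1⟩⟩
    exact Module.finrank_pos
  by_cases hjd : j ≤ (Y.prod (pw X n)).dim
  swap
  · have h1 : algRank W (Y.prod (pw X n)) j = 0 := by
      rw [algRank]
      have h2 : spanCycles W (Y.prod (pw X n)) j = ⊥ := by
        rw [eq_bot_iff]
        intro x hx
        have := Pool.Agent.H914.span_gr hx
        rwa [W.gr_eq_bot _ _ (by omega)] at this
      rw [h2, finrank_bot]
    rw [h1, Nat.cast_zero, mul_zero]
    positivity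
  have h1 := numRank_ge (W := W) (Z := Y.prod (pw X n)) hjd
  have h2 := finrank_NT (n := n) hcL hc0 hc hD hpX hpY
  have h3 := low (n := n) hc0 hcd hL hpX hpY
  have hloss0 : 0 ≤ loss (m + 1) b b' (n + 1) := by
    rw [loss]
    positivity
  by_cases hbig : 1 ≤ loss (m + 1) b b' (n + 1)
  · calc (1 - loss (m + 1) b b' (n + 1)) * (algRank W (Y.prod (pw X n)) j : ℚ) ≤ 0 :=
        mul_nonpos_of_nonpos_of_nonneg (by linarith) (by positivity)
      _ ≤ _ := by positivity
  push Not at hbig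
  have h4 : 4 * (m + 1) ≤ n + 1 := by
    by_contra h5
    have h6 : (n + 1 : ℕ) ≤ 4 * (m + 1) * b ^ (m + 1 - 1) * b' := by
      have h7 : 1 ≤ b ^ (m + 1 - 1) := Nat.one_le_pow _ _ hb1
      calc n + 1 ≤ 4 * (m + 1) := by omega
        _ ≤ 4 * (m + 1) * b ^ (m + 1 - 1) := Nat.le_mul_of_pos_right _ h7
        _ ≤ _ := Nat.le_mul_of_pos_right _ hb1'
    apply absurd hbig
    rw [not_lt, loss, le_div_iff₀ hn0, one_mul]
    exact_mod_cast h6
  have h5 := small_subsets h4 (Nat.succ_pos m)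
  have h6 : (Module.finrank W.K (NT W (Y.prod (pw X n)) j) : ℚ) ≤
      loss (m + 1) b b' (n + 1) * algRank W (Y.prod (pw X n)) j := by
    calc (Module.finrank W.K (NT W (Y.prod (pw X n)) j) : ℚ)
        ≤ ((b' * (((univ : Finset (Finset (Fin (n + 1)))).filter
          fun S => S.card < m + 1).card * b ^ m) : ℕ) : ℚ) := by exact_mod_cast h2
      _ = b' * b ^ m * (((univ : Finset (Finset (Fin (n + 1)))).filter
          fun S => S.card < m + 1).card : ℚ) := by push_cast; ring
      _ ≤ b' * b ^ m * (4 * ((m + 1 : ℕ) : ℚ) / ((n + 1 : ℕ) : ℚ) *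
          ((n + 1).choose (m + 1) : ℚ)) := mul_le_mul_of_nonneg_left h5 (by positivity)
      _ = loss (m + 1) b b' (n + 1) * ((n + 1).choose (m + 1) : ℚ) := by
        rw [loss, Nat.add_sub_cancel]
        ring
      _ ≤ _ := by
        refine mul_le_mul_of_nonneg_left ?_ hloss0
        rw [algRank]
        exact_mod_cast h3
  have h7 : (algRank W (Y.prod (pw X n)) j : ℚ) ≤ numRank ops (Y.prod (pw X n)) j +
      Module.finrank W.K (NT W (Y.prod (pw X n)) j) := by
    rw [algRank]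
    exact_mod_cast h1
  linarith

/-- **A finite number of factors suffices.** -/
theorem finite_det {m j c : ℕ} (hcL : c * (m + 1) = 2 * j) (hc0 : 0 < c)
    (hc : ∀ i, 0 < i → i < c → W.gr X i = ⊥) (hD : LD W X m c j)
    {pX : W.H X} (hpX : IsPt W X pX) {pY : W.H Y} (hpY : IsPt W Y pY) {r n : ℕ}
    (hr : m ≤ r + 1) (hrn : r ≤ n) (hD' : HomEqNumIn W (Y.prod (pw X r)) j) :
    HomEqNumIn W (Y.prod (pw X n)) j := by
  classical
  obtain ⟨ι, hι, ⟨B⟩⟩ := exists_hbasis W X
  obtain ⟨ιY, hιY, ⟨BY⟩⟩ := exists_hbasis W Y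
  have := Fintype.ofFinite ι
  have := Fintype.ofFinite ιY
  have hX1 : (1 : W.H X) ≠ 0 := by
    intro h
    apply hpX.tr
    rw [← mul_one pX, h, mul_zero, map_zero]
  have hY1 : (1 : W.H Y) ≠ 0 := by
    intro h
    apply hpY.tr
    rw [← mul_one pY, h, mul_zero, map_zero]
  obtain ⟨i0, h0, h1, hi0⟩ := exists_unit (B := B) hX1
  obtain ⟨y0, h0Y, h1Y, hy0⟩ := exists_unit (B := BY) hY1
  obtain ⟨b, hb⟩ := exists_wbasis BY B n
  refine D_of_NT fun x hx => ?_
  apply b.repr.injective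
  ext a
  rw [map_zero]
  by_cases ha : m + 1 ≤ (supp i0 a.2).card
  · exact good_zero hcL hc0 hc hb h0 h1 hi0 h0Y h1Y hy0 hx.1 hx.2 hD hpX hpY a ha
  · exact small_zero hrn hb h0 h1 hi0 hx.1 hx.2 hD' hpX a (by omega)

/-- The two cases. -/
theorem main (hd : 0 < X.dim) (hX : HasTop W X)
    (hY : HasTop W Y) (hM : W.gr X 1 ≠ ⊥ → HasMixed W X) {j : ℕ} (hj : 0 < j)
    (hD : LeadIsKnown W X j) :
    (∀ n, (1 - loss (leadNum W X j) (bettiSum W X) (bettiSum W Y) (n + 1)) *
      algRank W (Y.prod (pw X n)) j ≤ numRank ops (Y.prod (pw X n)) j) ∧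
    (∀ r n, leadNum W X j ≤ r + 2 → r ≤ n → HomEqNumIn W (Y.prod (pw X r)) j →
      HomEqNumIn W (Y.prod (pw X n)) j) := by
  obtain ⟨E, hE1, hE2⟩ := hX
  obtain ⟨E', hE1', hE2'⟩ := hY
  have hpX := isPt_of_top hE1 hE2
  have hpY := isPt_of_top hE1' hE2'
  by_cases h1 : W.gr X 1 = ⊥
  · have e1 : leadNum W X j = j := by rw [leadNum, if_pos h1]
    have e2 : leadDeg W X = 2 := by rw [leadDeg, if_pos h1]
    obtain ⟨m, rfl⟩ : ∃ m, j = m + 1 := ⟨j - 1, by omega⟩
    have hLD : LD W X m 2 (m + 1) := by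
      rcases hD with ⟨S, f, hf, hD⟩ | ⟨_, hD⟩
      · rw [InjectiveOnLead, e2] at hf
        rw [e1] at hD
        exact LD_of_D (by omega) f hf hD
      · exact LD_of_alg fun x hx => span_le_algSpan (hD hx)
    rw [e1]
    have hc : ∀ i, 0 < i → i < 2 → W.gr X i = ⊥ := by
      intro i hi hi'
      rwa [show i = 1 by omega]
    exact ⟨fun n => share (by ring) two_pos (by omega) hc (lead_two hE1 hE2 hd m) hLD hpX hpY n,
      fun r n hr hrn hD' => finite_det (by ring) two_pos hc hLD hpX hpY (by omega) hrn hD'⟩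
  · have e1 : leadNum W X j = 2 * j := by rw [leadNum, if_neg h1]
    have e2 : leadDeg W X = 1 := by rw [leadDeg, if_neg h1]
    obtain ⟨D, hD1, v, hv, w, hw, htr⟩ := hM h1
    obtain ⟨m, rfl⟩ : ∃ m, j = m + 1 := ⟨j - 1, by omega⟩
    have e3 : 2 * (m + 1) - 1 = 2 * m + 1 := by omega
    have hLD : LD W X (2 * m + 1) 1 (m + 1) := by
      rcases hD with ⟨S, f, hf, hD⟩ | ⟨h2, _⟩
      · rw [InjectiveOnLead, e2] at hf
        rw [e1, e3] at hD
        exact LD_of_D (by omega) f hf hD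
      · exact absurd h2 h1
    have e4 : 2 * (m + 1) = 2 * m + 1 + 1 := by ring
    have hc : ∀ i, 0 < i → i < 1 → W.gr X i = ⊥ := fun i hi hi' => absurd hi (by omega)
    have hlead : HasLead W X (2 * m + 1) 1 (m + 1) := lead_one (cl_mem_algSpan hD1)
      (W.cl_mem (p := 1) hD1) hv hw htr m
    rw [e1, e4]
    exact ⟨fun n => share (by ring) one_pos (by omega) hc hlead hLD hpX hpY n,
      fun r n hr hrn hD' => finite_det (by ring) one_pos hc hLD hpX hpY (by omega) hrn hD'⟩

end Pool.Agent.H858.AD
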