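import Pool.Agent.H858.FC.Gen
import Pool.Agent.H858.AD.Cnt
import Pool.Graph.R_seed8.W534.PoleD

/-!
# Words and dual words
-/

set_option autoImplicit false
set_option linter.unusedSectionVars false
set_option linter.unusedVariables false

open CategoryTheory AlgebraicGeometry Finset

universe u v w

namespace Pool.Agent.H858.AD

open Pool.Agent.H914 hiding iter map_iter
open Pool.Agent.H447 Pool.Agent.W534 VarClass Obj WeilCohomology
open Pool.Agent.H281R3.HT Pool.Agent.W536.RR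
open Pool.Agent.Y163 (pw pr tup tup_pr pw_hom_ext pr_zero_succ pr_succ dim_pw HBasis dualEq
  dualEq_apply mon mon_eq exists_monBasis)
open Pool.Agent.H858.FC (PP PP_eq PP_gr PP_mul tr_PP PP_alg prod_filter_one)
open Pool.Agent.R940 (repr_zero)

variable {k : Type u} [Field k] {𝒱 : VarClass k} {ops : CycleOps 𝒱}
  {W : WeilCohomology.{u, v} ops} {X Y Z S : 𝒱.Obj}

/-- The external products on `Y × X ^ (n + 1)`. -/
noncomputable def EE (W : WeilCohomology.{u, v} ops) (Y X : 𝒱.Obj) (n : ℕ) (y : W.H Y)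
    (x : Fin (n + 1) → W.H X) : W.H (Y.prod (pw X n)) :=
  W.map (fst Y (pw X n)) y * W.map (snd Y (pw X n)) (PP W X n x)

theorem EE_gr {n : ℕ} {y : W.H Y} {e : ℕ} (hy : y ∈ W.gr Y e) {x : Fin (n + 1) → W.H X}
    {d : Fin (n + 1) → ℕ} (h : ∀ i, x i ∈ W.gr X (d i)) :
    EE W Y X n y x ∈ W.gr (Y.prod (pw X n)) (e + ∑ i, d i) :=
  W.mul_mem (W.map_mem _ hy) (W.map_mem _ (PP_gr n h))

theorem EE_mul {n : ℕ} {y y' : W.H Y} {e e' : ℕ} (hy : y ∈ W.gr Y e) (hy' : y' ∈ W.gr Y e')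
    {x x' : Fin (n + 1) → W.H X} {d d' : Fin (n + 1) → ℕ} (h : ∀ i, x i ∈ W.gr X (d i))
    (h' : ∀ i, x' i ∈ W.gr X (d' i)) : ∃ ε : W.K, ε ≠ 0 ∧
      EE W Y X n y x * EE W Y X n y' x' = ε • EE W Y X n (y * y') (fun i => x i * x' i) := by
  obtain ⟨ε, hε, h1⟩ := PP_mul n h h'
  have h2 := W.comm (W.map_mem (snd Y (pw X n)) (PP_gr n h)) (W.map_mem (fst Y (pw X n)) hy')
  set a := W.map (fst Y (pw X n)) y with ha
  set b := W.map (snd Y (pw X n)) (PP W X n x) with hb
  set a' := W.map (fst Y (pw X n)) y' with ha'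
  set b' := W.map (snd Y (pw X n)) (PP W X n x') with hb'
  set s : W.K := (-1) ^ ((∑ i : Fin (n + 1), d i) * e') with hs
  refine ⟨s * ε, mul_ne_zero (pow_ne_zero _ (neg_ne_zero.2 one_ne_zero)) hε, ?_⟩
  change a * b * (a' * b') = (s * ε) • (W.map (fst Y (pw X n)) (y * y') *
      W.map (snd Y (pw X n)) (PP W X n (fun i => x i * x' i)))
  calc a * b * (a' * b') = a * (b * a') * b' := by rw [mul_assoc, mul_assoc, mul_assoc]
    _ = s • (a * a' * (b * b')) := by
      rw [h2, mul_smul_comm, smul_mul_assoc]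
      congr 1
      rw [mul_assoc, mul_assoc, mul_assoc]
    _ = s • (a * a' * (ε • W.map (snd Y (pw X n)) (PP W X n (fun i => x i * x' i)))) := by
      have h3 : b * b' = ε • W.map (snd Y (pw X n)) (PP W X n (fun i => x i * x' i)) := by
        rw [hb, hb', ← map_mul, h1, map_smul]
      rw [h3]
    _ = _ := by
      have h3 : a * a' = W.map (fst Y (pw X n)) (y * y') := by
        rw [ha, ha', ← map_mul]
      rw [h3, mul_smul_comm, smul_smul]

theorem tr_EE {n : ℕ} {y y' : W.H Y} {e e' : ℕ} (hy : y ∈ W.gr Y e) (hy' : y' ∈ W.gr Y e')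
    {x x' : Fin (n + 1) → W.H X} {d d' : Fin (n + 1) → ℕ} (h : ∀ i, x i ∈ W.gr X (d i))
    (h' : ∀ i, x' i ∈ W.gr X (d' i)) : ∃ ε : W.K, ε ≠ 0 ∧
      W.tr (Y.prod (pw X n)) (EE W Y X n y x * EE W Y X n y' x') =
        ε * (W.tr Y (y * y') * ∏ i, W.tr X (x i * x' i)) := by
  obtain ⟨ε, hε, h1⟩ := EE_mul (n := n) hy hy' h h'
  refine ⟨ε, hε, ?_⟩
  rw [h1, map_smul, smul_eq_mul, EE, W.tr_prod, tr_PP]

theorem EE_alg {n : ℕ} {y : W.H Y} (hy : y ∈ algSpan W Y) {x : Fin (n + 1) → W.H X}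
    (h : ∀ i, x i ∈ algSpan W X) : EE W Y X n y x ∈ algSpan W (Y.prod (pw X n)) :=
  algSpan_mul (algSpan_map _ hy) (algSpan_map _ (PP_alg n h))

/-- Dual families of homogeneous classes. -/
theorem exists_dual {κ : Type w} [Finite κ] [DecidableEq κ] {f : κ → W.H Z}
    (hf : LinearIndependent W.K f) {deg : κ → ℕ} (hdeg : ∀ l, f l ∈ W.gr Z (deg l)) :
    ∃ u : κ → W.H Z, (∀ l, u l ∈ W.gr Z (2 * Z.dim - deg l)) ∧
      ∀ l l', W.tr Z (f l' * u l) = if l' = l then 1 else 0 := by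
  classical
  have hex : ∀ l : κ, ∃ φ : Module.Dual W.K (W.H Z), ∀ l', φ (f l') = if l' = l then 1 else 0 := by
    intro l
    obtain ⟨φ, hφ⟩ := LinearMap.exists_extend hf.repr
    refine ⟨(Finsupp.lapply l) ∘ₗ φ, fun l' => ?_⟩
    have h1 : φ (f l') = Finsupp.single l' 1 := by
      have h2 : φ (f l') = hf.repr ⟨f l', Submodule.subset_span ⟨l', rfl⟩⟩ := by
        rw [← hφ]
        rfl
      rw [h2]
      exact hf.repr_eq_single l' _ rfl
    rw [LinearMap.comp_apply, h1, Finsupp.lapply_apply, Finsupp.single_apply]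
  choose φ hφ using hex
  have hle : ∀ l, deg l ≤ 2 * Z.dim := by
    intro l
    by_contra h
    have h1 := hdeg l
    rw [W.gr_eq_bot Z _ (not_le.1 h), Submodule.mem_bot] at h1
    exact hf.ne_zero l h1
  refine ⟨fun l => proj (W.isInternal Z) (2 * Z.dim - deg l) ((dualEq W Z).symm (φ l)),
    fun l => proj_mem _ _ _, fun l l' => ?_⟩
  set y := (dualEq W Z).symm (φ l) with hy
  have hy1 : ∀ a, W.tr Z (a * y) = φ l a := by
    intro a
    rw [← dualEq_apply, hy, LinearEquiv.apply_symm_apply]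
  by_cases hll : deg l' = deg l
  · rw [← hφ l l', ← hy1]
    -- the other components do not matter
    have h1 : ∀ a : W.H Z, W.tr Z (f l' * proj (W.isInternal Z) (2 * Z.dim - deg l) a) =
        W.tr Z (f l' * a) := by
      intro a
      refine gr_induction (W.isInternal Z) (p := fun a =>
        W.tr Z (f l' * proj (W.isInternal Z) (2 * Z.dim - deg l) a) = W.tr Z (f l' * a)) ?_ ?_ a
      · intro j a ha
        by_cases hj : j = 2 * Z.dim - deg l
        · subst hj
          rw [proj_same _ ha]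
        · rw [proj_ne _ ha hj, mul_zero, map_zero]
          refine (W.tr_eq_zero (W.mul_mem (hdeg l') ha) ?_).symm
          have := hle l
          omega
      · intro a b ha hb
        rw [map_add, mul_add, mul_add, map_add, map_add, ha, hb]
    exact h1 y
  · rw [if_neg (fun h => hll (by rw [h]))]
    refine W.tr_eq_zero (W.mul_mem (hdeg l') (proj_mem _ _ _)) ?_
    have := hle l
    omega

/-- The unit letter. -/
theorem exists_unit {ι : Type v} [Finite ι] {B : HBasis W X ι} (h1 : (1 : W.H X) ≠ 0) :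
    ∃ i0, B.deg i0 = 0 ∧ (∃ c : W.K, c ≠ 0 ∧ B.b i0 = c • (1 : W.H X)) ∧
      ∀ i, B.deg i = 0 → i = i0 := by
  classical
  have hex : ∃ i0, B.b.repr 1 i0 ≠ 0 := by
    by_contra hcon
    push Not at hcon
    apply h1
    apply B.b.repr.injective
    ext i
    rw [hcon, map_zero]
    rfl
  obtain ⟨i0, hi0⟩ := hex
  have hdeg : B.deg i0 = 0 := by
    by_contra hne
    exact hi0 (repr_zero (W.isInternal X).submodule_iSupIndep B.b B.deg B.mem (W.one_mem X) hne)
  have hspan : ∀ l, B.deg l = 0 → ∃ c : W.K, c • (1 : W.H X) = B.b l := by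
    intro l hl
    have h2 := B.mem l
    rw [hl, W.gr_zero] at h2
    exact Submodule.mem_span_singleton.1 h2
  obtain ⟨c0, hc0⟩ := hspan i0 hdeg
  have hc : c0 ≠ 0 := by
    rintro rfl
    rw [zero_smul] at hc0
    exact B.b.ne_zero i0 hc0.symm
  refine ⟨i0, hdeg, ⟨c0, hc, hc0.symm⟩, fun l hl => ?_⟩
  obtain ⟨c, hc'⟩ := hspan l hl
  by_contra hne
  have h2 : B.b l = (c * c0⁻¹) • B.b i0 := by
    rw [← hc', ← hc0, smul_smul, mul_assoc, inv_mul_cancel₀ hc, mul_one]
  have h3 : B.b.repr (B.b l) l = B.b.repr ((c * c0⁻¹) • B.b i0) l := by rw [← h2]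
  rw [map_smul, B.b.repr_self, B.b.repr_self, Finsupp.single_eq_same, Finsupp.smul_apply,
    Finsupp.single_eq_of_ne hne, smul_zero] at h3
  exact one_ne_zero h3

theorem mon_PP {ι : Type v} (B : HBasis W X ι) (n : ℕ) (I : Fin (n + 1) → ι) :
    mon B n I = PP W X n (fun t => B.b (I t)) := by
  rw [mon_eq, PP_eq]

/-- The basis of the words. -/
theorem exists_wbasis {ιY ι : Type v} (BY : HBasis W Y ιY) (B : HBasis W X ι) (n : ℕ) :
    ∃ b : Module.Basis (ιY × (Fin (n + 1) → ι)) W.K (W.H (Y.prod (pw X n))),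
      ∀ a, b a = EE W Y X n (BY.b a.1) (fun t => B.b (a.2 t)) := by
  obtain ⟨bX, hbX⟩ := exists_monBasis B n
  refine ⟨(BY.b.tensorProduct bX).map (kappa W Y (pw X n)), fun a => ?_⟩
  rw [Module.Basis.map_apply, Module.Basis.tensorProduct_apply', kappa_tmul, hbX, mon_PP]
  rfl

/-- The coefficients of a class are its traces with dual words. -/
theorem coef {α : Type w} [Fintype α] [DecidableEq α] {b : Module.Basis α W.K (W.H Z)} {u : W.H Z}
    {a : α} (hne : W.tr Z (b a * u) ≠ 0) (h0 : ∀ a', a' ≠ a → W.tr Z (b a' * u) = 0) {x : W.H Z}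
    (hx : W.tr Z (x * u) = 0) : b.repr x a = 0 := by
  rw [← b.sum_repr x, Finset.sum_mul, map_sum, Finset.sum_eq_single a] at hx
  · rw [smul_mul_assoc, map_smul, smul_eq_mul] at hx
    exact (mul_eq_zero.1 hx).resolve_right hne
  · intro a' _ ha'
    rw [smul_mul_assoc, map_smul, h0 a' ha', smul_zero]
  · intro h
    exact absurd (Finset.mem_univ _) h

end Pool.Agent.H858.AD
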